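import Mathlib

set_option autoImplicit false

open Finset Module
open scoped BigOperators

namespace Pool.Agent.Lib.C3bba25.OW

theorem so_rank {E : Type} [AddCommGroup E] [Module (ZMod 2) E] [FiniteDimensional (ZMod 2) E]
    (B : LinearMap.BilinForm (ZMod 2) E) (hB : B.Nondegenerate) (W : Submodule (ZMod 2) E)
    (hW : ∀ x ∈ W, ∀ y ∈ W, B x y = 0) : 2 * finrank (ZMod 2) W ≤ finrank (ZMod 2) E := by
  have h1 := LinearMap.BilinForm.finrank_orthogonal hB W
  have h2 : W ≤ B.orthogonal W := fun y hy =>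
    LinearMap.BilinForm.mem_orthogonal_iff.2 fun x hx => hW x hx y hy
  have h3 := Submodule.finrank_mono h2
  have h4 := Submodule.finrank_le W
  omega

theorem so_rank1 {k : ℕ} (W : Submodule (ZMod 2) (Fin k → ZMod 2))
    (hW : ∀ x ∈ W, ∀ y ∈ W, ∑ i, x i * y i = 0) : 2 * finrank (ZMod 2) W ≤ k := by
  let B : LinearMap.BilinForm (ZMod 2) (Fin k → ZMod 2) :=
    LinearMap.mk₂ (ZMod 2) (fun x y => ∑ i, x i * y i)
      (by intro a b c; simp [add_mul, sum_add_distrib])
      (by intro a b c; simp [mul_sum, mul_assoc])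
      (by intro a b c; simp [mul_add, sum_add_distrib])
      (by intro a b c; simp [mul_sum, mul_left_comm])
  have hB : B.Nondegenerate := by
    constructor
    · intro x hx
      funext i
      simpa [B, Pi.single_apply] using hx (Pi.single i 1)
    · intro x hx
      funext i
      simpa [B, Pi.single_apply] using hx (Pi.single i 1)
  simpa using so_rank B hB W hW

theorem so_rank2 {k : ℕ} (W : Submodule (ZMod 2) (Fin k → ZMod 2 × ZMod 2))
    (hW : ∀ x ∈ W, ∀ y ∈ W, ∑ i, ((x i).1 * (y i).1 + (x i).2 * (y i).2) = 0) :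
    finrank (ZMod 2) W ≤ k := by
  let B : LinearMap.BilinForm (ZMod 2) (Fin k → ZMod 2 × ZMod 2) :=
    LinearMap.mk₂ (ZMod 2) (fun x y => ∑ i, ((x i).1 * (y i).1 + (x i).2 * (y i).2))
      (by
        intro a b c
        rw [← sum_add_distrib]
        exact sum_congr rfl fun i _ => by simp only [Pi.add_apply, Prod.fst_add, Prod.snd_add]; ring)
      (by
        intro a b c
        rw [smul_eq_mul, mul_sum]
        exact sum_congr rfl fun i _ => by
          simp only [Pi.smul_apply, Prod.smul_fst, Prod.smul_snd, smul_eq_mul]; ring)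
      (by
        intro a b c
        rw [← sum_add_distrib]
        exact sum_congr rfl fun i _ => by simp only [Pi.add_apply, Prod.fst_add, Prod.snd_add]; ring)
      (by
        intro a b c
        rw [smul_eq_mul, mul_sum]
        exact sum_congr rfl fun i _ => by
          simp only [Pi.smul_apply, Prod.smul_fst, Prod.smul_snd, smul_eq_mul]; ring)
  have key : ∀ x : Fin k → ZMod 2 × ZMod 2, (∀ y, B x y = 0) → x = 0 := by
    intro x hx
    funext i
    have h1 := hx (Pi.single i (1, 0))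
    have h2 := hx (Pi.single i (0, 1))
    simp only [B, LinearMap.mk₂_apply] at h1 h2
    rw [sum_eq_single i (by intro j _ hj; simp [hj]) (by simp)] at h1 h2
    simp at h1 h2
    exact Prod.ext h1 h2
  have hB : B.Nondegenerate := by
    refine ⟨key, fun x hx => key x fun y => ?_⟩
    have := hx y
    simp only [B, LinearMap.mk₂_apply] at this ⊢
    rw [← this]
    exact sum_congr rfl fun i _ => by ring
  have := so_rank B hB W hW
  rw [Module.finrank_pi_fintype] at this
  simp at this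
  omega

theorem maxJ {k : ℕ} {G A : Type} [AddCommGroup G] [AddCommGroup A] (π : Fin k → G →+ A) :
    ∃ J : Finset (Fin k), (∀ t : Fin k → A, ∃ g, ∀ j ∈ J, π j g = t j) ∧
      ∀ i ∉ J, ∃ a, ∀ g, (∀ j ∈ J, π j g = 0) → π i g ≠ a := by
  classical
  obtain ⟨J, hJ, hmax⟩ := Finset.exists_max_image
    (univ.filter fun J : Finset (Fin k) => ∀ t : Fin k → A, ∃ g, ∀ j ∈ J, π j g = t j)
    Finset.card ⟨∅, by simp⟩
  have hJ' := (mem_filter.1 hJ).2
  refine ⟨J, hJ', fun i hi => ?_⟩
  by_contra hcon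
  push Not at hcon
  have : (insert i J).card ≤ J.card := by
    refine hmax _ (mem_filter.2 ⟨mem_univ _, fun t => ?_⟩)
    obtain ⟨g0, hg0⟩ := hJ' t
    obtain ⟨g1, hg1, hg2⟩ := hcon (t i - π i g0)
    refine ⟨g0 + g1, fun j hj => ?_⟩
    rcases mem_insert.1 hj with rfl | hj
    · rw [map_add, hg2]; abel
    · rw [map_add, hg0 j hj, hg1 j hj, add_zero]
  rw [card_insert_of_notMem hi] at this
  omega

theorem fiber_bound {q : ℕ} {G T : Type} [AddCommGroup G] [AddCommGroup T] [Fintype G] [Fintype T]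
    [Module (ZMod 2) G] [Module (ZMod 2) T] (φ : G →ₗ[ZMod 2] T) (f : (Fin q → T) → ℝ)
    (hf : ∀ t, 0 ≤ f t) :
    ∑ M : Fin q → G, f (fun r => φ (M r)) ≤
      (2 : ℝ) ^ (finrank (ZMod 2) (LinearMap.ker φ) * q) * ∑ t, f t := by
  classical
  have hcard : ∀ t : Fin q → T,
      (univ.filter fun M : Fin q → G => (fun r => φ (M r)) = t).card ≤
        2 ^ (finrank (ZMod 2) (LinearMap.ker φ) * q) := by
    intro t
    rcases (univ.filter fun M : Fin q → G => (fun r => φ (M r)) = t).eq_empty_or_nonempty with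
      h | ⟨M0, hM0⟩
    · rw [h]; simp
    · have h0 := (mem_filter.1 hM0).2
      have hk : Nat.card (LinearMap.ker φ) = 2 ^ finrank (ZMod 2) (LinearMap.ker φ) := by
        rw [Module.natCard_eq_pow_finrank (K := ZMod 2)]; simp
      have : (univ.filter fun M : Fin q → G => (fun r => φ (M r)) = t).card ≤
          (Fintype.piFinset fun _ : Fin q => univ.filter fun g : G => g ∈ LinearMap.ker φ).card := by
        refine card_le_card_of_injOn (fun M r => M r - M0 r) ?_ ?_
        · intro M hM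
          have h1 := (mem_filter.1 (mem_coe.1 hM)).2
          refine mem_coe.2 (Fintype.mem_piFinset.2 fun r => mem_filter.2 ⟨mem_univ _, ?_⟩)
          rw [LinearMap.mem_ker, map_sub, congrFun h1 r, congrFun h0 r, sub_self]
        · intro M _ N _ h
          funext r
          exact sub_left_injective (congrFun h r)
      refine this.trans (le_of_eq ?_)
      rw [Fintype.card_piFinset, prod_const, card_univ, Fintype.card_fin, pow_mul, ← hk,
        Nat.card_eq_fintype_card, Fintype.card_subtype]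
  rw [← Finset.sum_fiberwise univ (fun (M : Fin q → G) (r : Fin q) => φ (M r)), mul_sum]
  refine sum_le_sum fun t _ => ?_
  rw [sum_congr rfl (fun M hM => by rw [(mem_filter.1 hM).2]), sum_const, nsmul_eq_mul]
  refine mul_le_mul_of_nonneg_right ?_ (hf t)
  exact_mod_cast hcard t

theorem sum_prod_swap {q : ℕ} {J A : Type} [Fintype J] [DecidableEq J] [Fintype A]
    (g : J → (Fin q → A) → ℝ) :
    ∑ t : Fin q → J → A, ∏ i, g i (fun r => t r i) = ∏ i, ∑ u, g i u := by
  classical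
  rw [Finset.prod_univ_sum, Fintype.piFinset_univ]
  exact Fintype.sum_equiv (Equiv.piComm fun (_ : Fin q) (_ : J) => A) _ _ fun t => rfl

section Main

variable {k q : ℕ} (w : (Fin q → ZMod 2) → (Fin q → ZMod 2) → ℝ)

theorem row_le (h2 : ∀ h, ∑ a, w a (a + h) ^ 2 ≤ 1) (h : Fin q → ZMod 2) :
    ∑ a, w a (a + h) ≤ Real.sqrt 2 ^ q := by
  have h1 := sq_sum_le_card_mul_sum_sq (s := univ) (f := fun a => w a (a + h))
  have h3 : ((univ : Finset (Fin q → ZMod 2)).card : ℝ) = (Real.sqrt 2 ^ q) ^ 2 := by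
    rw [← pow_mul, mul_comm, pow_mul, Real.sq_sqrt (by norm_num)]
    simp
  refine le_of_sq_le_sq (h1.trans ?_) (by positivity)
  rw [h3]
  exact mul_le_of_le_one_right (by positivity) (h2 h)

theorem w_le_one (h2 : ∀ h, ∑ a, w a (a + h) ^ 2 ≤ 1) (a b : Fin q → ZMod 2) : w a b ≤ 1 := by
  have h1 : w a (a + (b - a)) ^ 2 ≤ ∑ c, w c (c + (b - a)) ^ 2 :=
    single_le_sum (f := fun c => w c (c + (b - a)) ^ 2) (fun c _ => sq_nonneg _) (mem_univ a)
  rw [add_sub_cancel] at h1
  nlinarith [h2 (b - a)]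

theorem two_pow_eq (n : ℕ) : (2 : ℝ) ^ (n * q) = (Real.sqrt 2 ^ q) ^ (2 * n) := by
  rw [← pow_mul, show q * (2 * n) = 2 * (n * q) by ring, pow_mul (Real.sqrt 2),
    Real.sq_sqrt (by norm_num)]

theorem pair_le (h2 : ∀ h, ∑ a, w a (a + h) ^ 2 ≤ 1) :
    ∑ u : Fin q → ZMod 2 × ZMod 2, w (fun r => (u r).1) (fun r => (u r).2) ≤
      (Real.sqrt 2 ^ q) ^ 3 := by
  let e : (Fin q → ZMod 2 × ZMod 2) ≃ (Fin q → ZMod 2) × (Fin q → ZMod 2) :=
    { toFun := fun u => (fun r => (u r).2 - (u r).1, fun r => (u r).1)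
      invFun := fun p r => (p.2 r, p.2 r + p.1 r)
      left_inv := fun u => by funext r; simp
      right_inv := fun p => by ext r <;> simp }
  have h1 : ∑ u : Fin q → ZMod 2 × ZMod 2, w (fun r => (u r).1) (fun r => (u r).2) =
      ∑ p : (Fin q → ZMod 2) × (Fin q → ZMod 2), w p.2 (p.2 + p.1) := by
    refine Fintype.sum_equiv e _ _ fun u => ?_
    have : (fun r => (u r).2) = (e u).2 + (e u).1 := by funext r; simp [e]
    rw [this]
    rfl
  rw [h1, Fintype.sum_prod_type]
  refine (sum_le_sum fun h _ => row_le w h2 h).trans (le_of_eq ?_)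
  have h3 := two_pow_eq (q := q) 1
  rw [sum_const, nsmul_eq_mul, show (3 : ℕ) = 2 * 1 + 1 by rfl, pow_succ, ← h3]
  simp

theorem prod_drop (h0 : ∀ a b, 0 ≤ w a b) (h2 : ∀ h, ∑ a, w a (a + h) ^ 2 ≤ 1)
    (J : Finset (Fin k)) (a b : Fin k → Fin q → ZMod 2) :
    ∏ i, w (a i) (b i) ≤ ∏ i : J, w (a i) (b i) := by
  rw [Finset.prod_coe_sort J (fun i => w (a i) (b i))]
  exact Finset.prod_le_prod_of_subset_of_le_one (subset_univ J) (fun i _ => h0 _ _)
    (fun i _ _ => w_le_one w h2 _ _)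

theorem code_bound_sub (L : Submodule (ZMod 2) (Fin k → ZMod 2 × ZMod 2)) [Fintype L]
    (hL : ∀ x ∈ L, ∀ y ∈ L, ∑ i, ((x i).1 * (y i).1 + (x i).2 * (y i).2) = 0)
    (h0 : ∀ a b, 0 ≤ w a b) (h2 : ∀ h, ∑ a, w a (a + h) ^ 2 ≤ 1) :
    (∑ M : Fin q → L, ∏ i, w (fun r => ((M r).1 i).1) (fun r => ((M r).1 i).2)) ^ 12 ≤
      2 ^ (11 * k * q) := by
  classical
  set ρ : ℝ := Real.sqrt 2 ^ q with hρ
  have hρ1 : 1 ≤ ρ := one_le_pow₀ (Real.one_le_sqrt.2 (by norm_num))
  set S := ∑ M : Fin q → L, ∏ i, w (fun r => ((M r).1 i).1) (fun r => ((M r).1 i).2) with hS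
  have hS0 : 0 ≤ S := sum_nonneg fun M _ => prod_nonneg fun i _ => h0 _ _
  -- the set J
  obtain ⟨J, hJ1, hJ2⟩ := maxJ (G := L) (A := ZMod 2 × ZMod 2)
    (fun i => ((LinearMap.proj i : (Fin k → ZMod 2 × ZMod 2) →ₗ[ZMod 2] ZMod 2 × ZMod 2).comp
      L.subtype).toAddMonoidHom)
  simp only [LinearMap.toAddMonoidHom_coe, LinearMap.comp_apply, LinearMap.proj_apply,
    Submodule.subtype_apply] at hJ1 hJ2
  let φ : L →ₗ[ZMod 2] (J → ZMod 2 × ZMod 2) :=
    { toFun := fun x i => x.1 i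
      map_add' := fun _ _ => rfl
      map_smul' := fun _ _ => rfl }
  have hφ : LinearMap.range φ = ⊤ := by
    refine LinearMap.range_eq_top.2 fun t => ?_
    obtain ⟨g, hg⟩ := hJ1 fun i => if h : i ∈ J then t ⟨i, h⟩ else 0
    refine ⟨g, funext fun i => ?_⟩
    have := hg i.1 i.2
    rw [dif_pos i.2] at this
    exact this
  have hd : 2 * J.card + finrank (ZMod 2) (LinearMap.ker φ) = finrank (ZMod 2) L := by
    have := LinearMap.finrank_range_add_finrank_ker φ
    rw [hφ, finrank_top, Module.finrank_pi_fintype] at this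
    simp at this
    omega
  have hA : S ≤ ρ ^ (2 * finrank (ZMod 2) (LinearMap.ker φ) + 3 * J.card) := by
    have h1 := fiber_bound (q := q) φ
      (fun t => ∏ i : J, w (fun r => (t r i).1) (fun r => (t r i).2))
      (fun t => prod_nonneg fun i _ => h0 _ _)
    rw [sum_prod_swap (fun (_ : J) (u : Fin q → ZMod 2 × ZMod 2) =>
      w (fun r => (u r).1) (fun r => (u r).2)), two_pow_eq, ← hρ, prod_const, card_univ,
      Fintype.card_coe] at h1
    refine le_trans (sum_le_sum fun M _ => prod_drop w h0 h2 J _ _) (h1.trans ?_)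
    rw [pow_add, pow_mul ρ 3]
    refine mul_le_mul_of_nonneg_left (pow_le_pow_left₀ ?_ (pair_le w h2) _) (by positivity)
    exact sum_nonneg fun u _ => h0 _ _
  -- the sum map and the set I
  let z : L →ₗ[ZMod 2] (Fin k → ZMod 2) :=
    { toFun := fun x i => (x.1 i).2 - (x.1 i).1
      map_add' := fun x y => by
        funext i
        simp only [Submodule.coe_add, Pi.add_apply, Prod.fst_add, Prod.snd_add]
        ring
      map_smul' := fun c x => by
        funext i
        simp only [Submodule.coe_smul, Pi.smul_apply, Prod.smul_fst, Prod.smul_snd, smul_eq_mul,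
          RingHom.id_apply]
        ring }
  obtain ⟨I, hI1, hI2⟩ := maxJ (G := LinearMap.ker z) (A := ZMod 2)
    (fun i => { toFun := fun x => (x.1.1 i).1, map_zero' := rfl, map_add' := fun _ _ => rfl })
  simp only [AddMonoidHom.coe_mk, ZeroHom.coe_mk] at hI1 hI2
  have hI : I.card ≤ finrank (ZMod 2) (LinearMap.ker z) := by
    let χ : LinearMap.ker z →ₗ[ZMod 2] (I → ZMod 2) :=
      { toFun := fun x i => (x.1.1 i).1
        map_add' := fun _ _ => rfl
        map_smul' := fun _ _ => rfl }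
    have hχ : LinearMap.range χ = ⊤ := by
      refine LinearMap.range_eq_top.2 fun t => ?_
      obtain ⟨g, hg⟩ := hI1 fun i => if h : i ∈ I then t ⟨i, h⟩ else 0
      refine ⟨g, funext fun i => ?_⟩
      have := hg i.1 i.2
      rw [dif_pos i.2] at this
      exact this
    have := LinearMap.finrank_range_add_finrank_ker χ
    rw [hχ, finrank_top, Module.finrank_pi_fintype] at this
    simp at this
    omega
  let ψ : L →ₗ[ZMod 2] LinearMap.range z × (I → ZMod 2) :=
    LinearMap.prod z.rangeRestrict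
      { toFun := fun x i => (x.1 i).1
        map_add' := fun _ _ => rfl
        map_smul' := fun _ _ => rfl }
  have hψ : LinearMap.ker ψ = ⊥ := by
    refine LinearMap.ker_eq_bot'.2 fun x hx => ?_
    have hz : z x = 0 := congrArg (fun p => p.1.1) hx
    have hi : ∀ j ∈ I, (x.1 j).1 = 0 := fun j hj => congrFun (congrArg Prod.snd hx) ⟨j, hj⟩
    have h1 : ∀ i, (x.1 i).1 = 0 := by
      intro i
      by_cases h : i ∈ I
      · exact hi i h
      · obtain ⟨a, ha⟩ := hI2 i h
        have e0 : (0 : ZMod 2) ≠ a := ha 0 fun _ _ => rfl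
        have e1 : (x.1 i).1 ≠ a := ha ⟨x, hz⟩ hi
        have key : ∀ a b : ZMod 2, 0 ≠ a → b ≠ a → b = 0 := by decide
        exact key a _ e0 e1
    refine Subtype.ext (funext fun i => Prod.ext (h1 i) ?_)
    have h3 : (x.1 i).2 - (x.1 i).1 = 0 := congrFun hz i
    rw [h1 i, sub_zero] at h3
    exact h3
  have hB : S ≤ ρ ^ (2 * finrank (ZMod 2) (LinearMap.range z) + I.card) := by
    have h1 := fiber_bound (q := q) ψ
      (fun t => ∏ i : I, w (fun r => (t r).2 i) ((fun r => (t r).2 i) + fun r => (t r).1.1 i))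
      (fun t => prod_nonneg fun i _ => h0 _ _)
    rw [hψ, finrank_bot, zero_mul, pow_zero, one_mul] at h1
    have h3 : ∑ t : Fin q → LinearMap.range z × (I → ZMod 2),
        ∏ i : I, w (fun r => (t r).2 i) ((fun r => (t r).2 i) + fun r => (t r).1.1 i) =
        ∑ H : Fin q → LinearMap.range z, ∑ A : Fin q → I → ZMod 2,
          ∏ i : I, w (fun r => A r i) ((fun r => A r i) + fun r => (H r).1 i) := by
      rw [← Fintype.sum_prod_type']
      exact Fintype.sum_equiv (Equiv.arrowProdEquivProdArrow _ _ _) _ _ fun t => rfl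
    have h4 : ∀ H : Fin q → LinearMap.range z, ∑ A : Fin q → I → ZMod 2,
        ∏ i : I, w (fun r => A r i) ((fun r => A r i) + fun r => (H r).1 i) ≤ ρ ^ I.card := by
      intro H
      rw [sum_prod_swap (fun (i : I) (u : Fin q → ZMod 2) => w u (u + fun r => (H r).1 i))]
      refine (prod_le_prod (fun i _ => sum_nonneg fun u _ => h0 _ _)
        (fun i _ => row_le w h2 _)).trans (le_of_eq ?_)
      rw [prod_const, card_univ, Fintype.card_coe]
    have h5 : ∀ M : Fin q → L, ∏ i, w (fun r => ((M r).1 i).1) (fun r => ((M r).1 i).2) ≤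
        ∏ i : I, w (fun r => (ψ (M r)).2 i)
          ((fun r => (ψ (M r)).2 i) + fun r => (ψ (M r)).1.1 i) := by
      intro M
      refine (prod_drop w h0 h2 I _ _).trans (le_of_eq (prod_congr rfl fun i _ => ?_))
      have : ((fun r => (ψ (M r)).2 i) + fun r => (ψ (M r)).1.1 i) = fun r => ((M r).1 i).2 := by
        funext r
        change ((M r).1 i).1 + (((M r).1 i).2 - ((M r).1 i).1) = _
        ring
      rw [this]
      rfl
    refine (sum_le_sum fun M _ => h5 M).trans (h1.trans ?_)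
    rw [h3]
    refine (sum_le_sum fun H _ => h4 H).trans (le_of_eq ?_)
    rw [sum_const, nsmul_eq_mul, pow_add, hρ, ← two_pow_eq, card_univ, Fintype.card_fun,
      Module.card_eq_pow_finrank (K := ZMod 2), pow_mul]
    simp
  -- ranks
  have r1 := so_rank2 L hL
  have r2 := LinearMap.finrank_range_add_finrank_ker z
  have r3 := LinearMap.finrank_range_add_finrank_ker (z.comp (LinearMap.ker φ).subtype)
  have r4 : finrank (ZMod 2) (LinearMap.ker (z.comp (LinearMap.ker φ).subtype)) ≤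
      finrank (ZMod 2) (LinearMap.ker z) := by
    let κ : LinearMap.ker (z.comp (LinearMap.ker φ).subtype) →ₗ[ZMod 2] LinearMap.ker z :=
      { toFun := fun x => ⟨x.1.1, x.2⟩
        map_add' := fun _ _ => rfl
        map_smul' := fun _ _ => rfl }
    refine LinearMap.finrank_le_finrank_of_injective (f := κ) fun x y h => ?_
    exact Subtype.ext (Subtype.ext (congrArg (fun p : LinearMap.ker z => p.1) h))
  have r5 : 2 * finrank (ZMod 2) (LinearMap.range (z.comp (LinearMap.ker φ).subtype)) ≤ k := by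
    refine so_rank1 _ ?_
    rintro _ ⟨x, rfl⟩ _ ⟨y, rfl⟩
    rw [← hL x.1.1 x.1.2 y.1.1 y.1.2]
    have hx : ∀ j ∈ J, x.1.1 j = 0 := fun j hj => congrFun x.2 ⟨j, hj⟩
    have hy : ∀ j ∈ J, y.1.1 j = 0 := fun j hj => congrFun y.2 ⟨j, hj⟩
    refine sum_congr rfl fun i _ => ?_
    change ((x.1.1 i).2 - (x.1.1 i).1) * ((y.1.1 i).2 - (y.1.1 i).1) = _
    by_cases h : i ∈ J
    · rw [hx i h]; simp
    · obtain ⟨a, ha⟩ := hJ2 i h
      have e0 : (0 : ZMod 2 × ZMod 2) ≠ a := ha 0 fun _ _ => rfl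
      have e1 : x.1.1 i ≠ a := ha x.1 hx
      have e2 : y.1.1 i ≠ a := ha y.1 hy
      have e3 : x.1.1 i + y.1.1 i ≠ a :=
        ha (x.1 + y.1) fun j hj => by
          change x.1.1 j + y.1.1 j = 0
          rw [hx j hj, hy j hj, add_zero]
      have key : ∀ a p p' : ZMod 2 × ZMod 2, 0 ≠ a → p ≠ a → p' ≠ a → p + p' ≠ a →
          (p.2 - p.1) * (p'.2 - p'.1) = p.1 * p'.1 + p.2 * p'.2 := by decide
      exact key a _ _ e0 e1 e2 e3
  calc S ^ 12 = S ^ 8 * S ^ 4 := by ring
    _ ≤ (ρ ^ (2 * finrank (ZMod 2) (LinearMap.ker φ) + 3 * J.card)) ^ 8 *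
        (ρ ^ (2 * finrank (ZMod 2) (LinearMap.range z) + I.card)) ^ 4 :=
        mul_le_mul (pow_le_pow_left₀ hS0 hA _) (pow_le_pow_left₀ hS0 hB _) (by positivity)
          (by positivity)
    _ ≤ ρ ^ (2 * (11 * k)) := by
        rw [← pow_mul ρ, ← pow_mul ρ, ← pow_add]
        exact pow_le_pow_right₀ hρ1 (by omega)
    _ = 2 ^ (11 * k * q) := (two_pow_eq _).symm

theorem code_bound_fin (L : Submodule (ZMod 2) (Fin k → ZMod 2 × ZMod 2))
    (hL : ∀ x ∈ L, ∀ y ∈ L, ∑ i, ((x i).1 * (y i).1 + (x i).2 * (y i).2) = 0)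
    (h0 : ∀ a b, 0 ≤ w a b) (h2 : ∀ h, ∑ a, w a (a + h) ^ 2 ≤ 1)
    (s : Finset (Fin q → Fin k → ZMod 2 × ZMod 2)) (hs : ∀ M ∈ s, ∀ r, M r ∈ L) :
    (∑ M ∈ s, ∏ i, w (fun r => (M r i).1) (fun r => (M r i).2)) ^ 12 ≤ 2 ^ (11 * k * q) := by
  classical
  refine le_trans (pow_le_pow_left₀ (sum_nonneg fun M _ => prod_nonneg fun i _ => h0 _ _) ?_ 12)
    (code_bound_sub w L hL h0 h2)
  have hinj : Function.Injective fun (M : Fin q → L) (r : Fin q) => (M r).1 := by
    intro M N h
    funext r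
    exact Subtype.ext (congrFun h r)
  rw [← Finset.sum_image (s := univ) (g := fun (M : Fin q → L) (r : Fin q) => (M r).1)
    (f := fun M => ∏ i, w (fun r => (M r i).1) (fun r => (M r i).2)) (fun M _ N _ h => hinj h)]
  refine sum_le_sum_of_subset_of_nonneg (fun M hM => ?_)
    fun M _ _ => prod_nonneg fun i _ => h0 _ _
  exact mem_image.2 ⟨fun r => ⟨M r, hs M hM r⟩, mem_univ _, rfl⟩

end Main

theorem code_bound {k q : ℕ} (L : Submodule (ZMod 2) (Fin k → ZMod 2 × ZMod 2))
    (hL : ∀ x ∈ L, ∀ y ∈ L, ∑ i, ((x i).1 * (y i).1 + (x i).2 * (y i).2) = 0)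
    (w : (Fin q → ZMod 2) → (Fin q → ZMod 2) → ℝ) (h0 : ∀ a b, 0 ≤ w a b)
    (h2 : ∀ h, ∑ a, w a (a + h) ^ 2 ≤ 1) [DecidablePred (· ∈ L)] :
    (∑ M : Fin q → Fin k → ZMod 2 × ZMod 2 with (∀ r, M r ∈ L),
      ∏ i, w (fun r => (M r i).1) (fun r => (M r i).2)) ^ 12 ≤ 2 ^ (11 * k * q) :=
  code_bound_fin w L hL h0 h2 _ fun _ hM => (mem_filter.1 hM).2

end Pool.Agent.Lib.C3bba25.OW
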