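import Mathlib

set_option autoImplicit false

open Finset Matrix
open scoped BigOperators

namespace Pool.Agent.Lib.C3bba25.OW

/-- One-way quantum protocol with `c` qubits: Alice sends a unit vector of dimension at most
`2 ^ c`, Bob measures it with a projector and accepts on the projector's outcome. -/
def QOneWay {X Y : Type} (f : X → Y → Bool) (c : ℕ) : Prop :=
  ∃ (ι : Type) (_ : Fintype ι) (ψ : X → ι → ℂ) (P : Y → Matrix ι ι ℂ),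
    Fintype.card ι ≤ 2 ^ c ∧ (∀ x, ∑ s, ‖ψ x s‖ ^ 2 = 1) ∧
    (∀ y, (P y).IsHermitian ∧ P y * P y = P y) ∧
    ∀ x y, (f x y = true → (2 : ℝ) / 3 ≤ ∑ s, ‖(P y).mulVec (ψ x) s‖ ^ 2) ∧
      (f x y = false → ∑ s, ‖(P y).mulVec (ψ x) s‖ ^ 2 ≤ (1 : ℝ) / 3)

/-- One-way public-coin protocol: Alice sends `c` bits, Bob outputs. -/
def ROneWay {X Y : Type} (f : X → Y → Bool) (c : ℕ) : Prop :=
  ∃ (Ω : Type) (_ : Fintype Ω) (μ : Ω → ℝ) (msg : Ω → X → Fin c → Bool)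
    (out : Ω → (Fin c → Bool) → Y → Bool),
    (∀ ω, 0 ≤ μ ω) ∧ ∑ ω, μ ω = 1 ∧
    ∀ x y, (2 : ℝ) / 3 ≤ ∑ ω, if out ω (msg ω x) y = f x y then μ ω else 0

/-- Alice holds a matrix `B` over `F_2`, Bob `(h, w, b)`; the value is true iff
`(B + Bᵀ) h = w` and `hᵀ B h = b`. -/
def stab (q : ℕ) (B : Matrix (Fin q) (Fin q) (ZMod 2))
    (y : (Fin q → ZMod 2) × (Fin q → ZMod 2) × ZMod 2) : Bool :=
  decide ((B + Bᵀ).mulVec y.1 = y.2.1 ∧ y.1 ⬝ᵥ B.mulVec y.1 = y.2.2)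

/-- The sign character of `F_2`. -/
def sg (x : ZMod 2) : ℝ := if x = 0 then 1 else -1

/-- The test sum. -/
def gg {q : ℕ} (α : (Fin q → ZMod 2) → (Fin q → ZMod 2) → ℝ)
    (B : Matrix (Fin q) (Fin q) (ZMod 2)) : ℝ :=
  ∑ h, ∑ a, α h a * sg (a ⬝ᵥ B.mulVec a + (a + h) ⬝ᵥ B.mulVec (a + h))

end Pool.Agent.Lib.C3bba25.OW
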