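import Mathlib
import Pool.Agent.Lib.C3bba25.OW.Defs

set_option autoImplicit false

open Finset Matrix
open scoped BigOperators

namespace Pool.Agent.Lib.C3bba25.OW

lemma sg_add' : ∀ x y : ZMod 2, sg (x + y) = sg x * sg y := by
  intro x y
  have h : ∀ z : ZMod 2, z = 0 ∨ z = 1 := by decide
  have h11 : (1 : ZMod 2) + 1 = 0 := by decide
  rcases h x with rfl | rfl <;> rcases h y with rfl | rfl <;> simp [sg, h11]

lemma sg_zero' : sg 0 = 1 := by simp [sg]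

lemma sg_one' : sg 1 = -1 := by simp [sg]

lemma sum_sg_dot {q : ℕ} (a : Fin q → ZMod 2) :
    ∑ w : Fin q → ZMod 2, sg (w ⬝ᵥ a) = if a = 0 then (2 : ℝ) ^ q else 0 := by
  split_ifs with ha
  · subst ha
    simp [sg_zero']
  · obtain ⟨i, hi⟩ : ∃ i, a i ≠ 0 := by
      by_contra! h
      exact ha (funext h)
    have h1 : a i = 1 := by
      have h : ∀ z : ZMod 2, z ≠ 0 → z = 1 := by decide
      exact h _ hi
    have h2 : ∑ w : Fin q → ZMod 2, sg (w ⬝ᵥ a) =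
        ∑ w : Fin q → ZMod 2, sg ((w + Pi.single i 1) ⬝ᵥ a) :=
      (Equiv.sum_comp (Equiv.addRight (Pi.single i (1 : ZMod 2) : Fin q → ZMod 2))
        (fun w => sg (w ⬝ᵥ a))).symm
    have h3 : ∀ w : Fin q → ZMod 2, sg ((w + Pi.single i 1) ⬝ᵥ a) = -sg (w ⬝ᵥ a) := by
      intro w
      rw [add_dotProduct, single_dotProduct, one_mul, h1, sg_add', sg_one']
      ring
    simp only [h3, Finset.sum_neg_distrib] at h2
    linarith

lemma add_eq_zero_iff' {q : ℕ} (a b : Fin q → ZMod 2) : a + b = 0 ↔ a = b := by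
  constructor
  · intro h
    funext i
    have := congrFun h i
    have h' : ∀ x y : ZMod 2, x + y = 0 → x = y := by decide
    exact h' _ _ this
  · rintro rfl
    funext i
    have h' : ∀ x : ZMod 2, x + x = 0 := by decide
    exact h' _

theorem fourier {q : ℕ} (t : (Fin q → ZMod 2) → ℝ) (ht : ∀ w, |t w| ≤ 1) :
    ∃ α : (Fin q → ZMod 2) → ℝ, ∑ a, α a ^ 2 ≤ 1 ∧ ∀ w, t w = ∑ a, α a * sg (w ⬝ᵥ a) := by
  have hN : (0 : ℝ) < 2 ^ q := by positivity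
  have inv : ∀ w, t w = ∑ a, ((∑ v, t v * sg (v ⬝ᵥ a)) / 2 ^ q) * sg (w ⬝ᵥ a) := by
    intro w
    have h1 : ∀ a : Fin q → ZMod 2, ((∑ v, t v * sg (v ⬝ᵥ a)) / 2 ^ q) * sg (w ⬝ᵥ a) =
        ∑ v, t v / 2 ^ q * sg (a ⬝ᵥ (v + w)) := by
      intro a
      rw [Finset.sum_div, Finset.sum_mul]
      refine Finset.sum_congr rfl fun v _ => ?_
      rw [dotProduct_add, sg_add', dotProduct_comm a v, dotProduct_comm a w]
      ring
    simp only [h1]
    rw [Finset.sum_comm]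
    simp only [← Finset.mul_sum, sum_sg_dot, add_eq_zero_iff']
    rw [Finset.sum_eq_single w]
    · simp
    · intro v _ hv
      simp [hv]
    · simp
  refine ⟨fun a => (∑ v, t v * sg (v ⬝ᵥ a)) / 2 ^ q, ?_, inv⟩
  have h2 : ∑ a, ((∑ v, t v * sg (v ⬝ᵥ a)) / 2 ^ q) ^ 2 = (∑ w, t w * t w) / 2 ^ q := by
    have h3 : ∑ w, t w * t w =
        ∑ w, t w * ∑ a, ((∑ v, t v * sg (v ⬝ᵥ a)) / 2 ^ q) * sg (w ⬝ᵥ a) :=
      Finset.sum_congr rfl fun w _ => by rw [← inv w]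
    rw [h3]
    simp only [Finset.mul_sum]
    rw [Finset.sum_comm, Finset.sum_div]
    refine Finset.sum_congr rfl fun a _ => ?_
    have h4 : ∑ w, t w * ((∑ v, t v * sg (v ⬝ᵥ a)) / 2 ^ q * sg (w ⬝ᵥ a)) =
        ((∑ v, t v * sg (v ⬝ᵥ a)) / 2 ^ q) * ∑ w, t w * sg (w ⬝ᵥ a) := by
      rw [Finset.mul_sum]
      exact Finset.sum_congr rfl fun w _ => by ring
    rw [h4]
    field_simp
  rw [h2, div_le_one hN]
  calc ∑ w, t w * t w ≤ ∑ _w : Fin q → ZMod 2, (1 : ℝ) := by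
        refine Finset.sum_le_sum fun w _ => ?_
        have := abs_le.1 (ht w)
        nlinarith
    _ = 2 ^ q := by simp

lemma deriv_eq {q : ℕ} (B : Matrix (Fin q) (Fin q) (ZMod 2)) (a h : Fin q → ZMod 2) :
    a ⬝ᵥ B.mulVec a + (a + h) ⬝ᵥ B.mulVec (a + h) =
      (B + Bᵀ).mulVec h ⬝ᵥ a + h ⬝ᵥ B.mulVec h := by
  have h1 : (B + Bᵀ).mulVec h ⬝ᵥ a = a ⬝ᵥ B.mulVec h + h ⬝ᵥ B.mulVec a := by
    rw [add_mulVec, add_dotProduct, dotProduct_comm (B.mulVec h) a, mulVec_transpose,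
      ← dotProduct_mulVec]
  have h2 : ∀ x : ZMod 2, x + x = 0 := by decide
  rw [h1, mulVec_add, add_dotProduct, dotProduct_add, dotProduct_add]
  linear_combination h2 (a ⬝ᵥ B.mulVec a)

end Pool.Agent.Lib.C3bba25.OW
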