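import Mathlib
import Pool.Agent.Lib.C3bba25.OW.Four

set_option autoImplicit false

open Finset Matrix
open scoped BigOperators

namespace Pool.Agent.Lib.C3bba25.OW

lemma card_mat (q : ℕ) : Fintype.card (Matrix (Fin q) (Fin q) (ZMod 2)) = 2 ^ (q * q) := by
  have : Fintype.card (Matrix (Fin q) (Fin q) (ZMod 2)) =
      Fintype.card (Fin q → Fin q → ZMod 2) := Fintype.card_congr (Equiv.refl _)
  rw [this]
  simp [← pow_mul]

/-- From a protocol to a family of test sums with a large average. -/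
lemma exists_tests (q c : ℕ) (h : ROneWay (stab q) c) :
    ∃ (msg : Matrix (Fin q) (Fin q) (ZMod 2) → Fin c → Bool)
      (α : (Fin c → Bool) → (Fin q → ZMod 2) → (Fin q → ZMod 2) → ℝ),
      (∀ m h, ∑ a, α m h a ^ 2 ≤ 1) ∧
      (2 : ℝ) ^ (q * q) * (2 ^ q / 3) ≤ ∑ B, gg (α (msg B)) B := by
  obtain ⟨Ω, _, μ, msg, out, hμ, hsum, hok⟩ := h
  -- the sign of the output
  set s : Ω → (Fin c → Bool) → (Fin q → ZMod 2) × (Fin q → ZMod 2) × ZMod 2 → ℝ :=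
    fun ω m y => if out ω m y = true then 1 else -1 with hs
  set t : Ω → (Fin c → Bool) → (Fin q → ZMod 2) → (Fin q → ZMod 2) → ℝ :=
    fun ω m h w => (s ω m (h, w, 0) - s ω m (h, w, 1)) / 2 with ht
  have htb : ∀ ω m h w, |t ω m h w| ≤ 1 := by
    intro ω m h w
    simp only [ht, hs]
    split_ifs <;> norm_num
  have key : ∀ (B : Matrix (Fin q) (Fin q) (ZMod 2)) (h : Fin q → ZMod 2),
      (1 : ℝ) / 3 ≤ ∑ ω, μ ω * (t ω (msg ω B) h ((B + Bᵀ).mulVec h) * sg (h ⬝ᵥ B.mulVec h)) := by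
    intro B h
    have h0 := hok B (h, (B + Bᵀ).mulVec h, 0)
    have h1 := hok B (h, (B + Bᵀ).mulVec h, 1)
    have hc : ∀ z : ZMod 2, z = 0 ∨ z = 1 := by decide
    have e : ∀ ω, μ ω * (t ω (msg ω B) h ((B + Bᵀ).mulVec h) * sg (h ⬝ᵥ B.mulVec h)) =
        (if out ω (msg ω B) (h, (B + Bᵀ).mulVec h, 0) = stab q B (h, (B + Bᵀ).mulVec h, 0)
          then μ ω else 0) +
        (if out ω (msg ω B) (h, (B + Bᵀ).mulVec h, 1) = stab q B (h, (B + Bᵀ).mulVec h, 1)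
          then μ ω else 0) - μ ω := by
      intro ω
      simp only [ht, hs, stab]
      rcases hc (h ⬝ᵥ B.mulVec h) with hz | hz <;> rw [hz] <;>
        cases out ω (msg ω B) (h, (B + Bᵀ).mulVec h, 0) <;>
        cases out ω (msg ω B) (h, (B + Bᵀ).mulVec h, 1) <;> simp [sg] <;> ring
    simp only [e, Finset.sum_sub_distrib, Finset.sum_add_distrib, hsum]
    linarith
  have tot : (2 : ℝ) ^ (q * q) * (2 ^ q / 3) ≤ ∑ ω, μ ω * ∑ B : Matrix (Fin q) (Fin q) (ZMod 2),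
      ∑ h : Fin q → ZMod 2, t ω (msg ω B) h ((B + Bᵀ).mulVec h) * sg (h ⬝ᵥ B.mulVec h) := by
    simp only [Finset.mul_sum]
    rw [Finset.sum_comm]
    calc (2 : ℝ) ^ (q * q) * (2 ^ q / 3)
        = ∑ _B : Matrix (Fin q) (Fin q) (ZMod 2), ∑ _h : Fin q → ZMod 2, (1 : ℝ) / 3 := by
          rw [Finset.sum_const, Finset.sum_const, Finset.card_univ, Finset.card_univ,
            card_mat, nsmul_eq_mul, nsmul_eq_mul]
          simp
          ring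
      _ ≤ _ := by
          refine Finset.sum_le_sum fun B _ => ?_
          rw [Finset.sum_comm]
          exact Finset.sum_le_sum fun h _ => key B h
  obtain ⟨ω, hω⟩ : ∃ ω, (2 : ℝ) ^ (q * q) * (2 ^ q / 3) ≤ ∑ B : Matrix (Fin q) (Fin q) (ZMod 2),
      ∑ h : Fin q → ZMod 2, t ω (msg ω B) h ((B + Bᵀ).mulVec h) * sg (h ⬝ᵥ B.mulVec h) := by
    by_contra! hlt
    obtain ⟨ω₀, hω₀⟩ : ∃ ω, 0 < μ ω := by
      by_contra! h0
      have : ∑ ω, μ ω ≤ 0 := Finset.sum_nonpos fun ω _ => h0 ω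
      linarith
    have h1 : ∑ ω, μ ω * ∑ B : Matrix (Fin q) (Fin q) (ZMod 2),
        ∑ h : Fin q → ZMod 2, t ω (msg ω B) h ((B + Bᵀ).mulVec h) * sg (h ⬝ᵥ B.mulVec h) <
        ∑ ω, μ ω * ((2 : ℝ) ^ (q * q) * (2 ^ q / 3)) :=
      Finset.sum_lt_sum (fun ω _ => mul_le_mul_of_nonneg_left (hlt ω).le (hμ ω))
        ⟨ω₀, Finset.mem_univ _, mul_lt_mul_of_pos_left (hlt ω₀) hω₀⟩
    rw [← Finset.sum_mul, hsum, one_mul] at h1
    linarith
  choose α hα1 hα2 using fun m h => fourier (t ω m h) (htb ω m h)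
  refine ⟨msg ω, α, hα1, hω.trans (le_of_eq ?_)⟩
  refine Finset.sum_congr rfl fun B _ => ?_
  unfold gg
  refine Finset.sum_congr rfl fun h _ => ?_
  rw [hα2, Finset.sum_mul]
  refine Finset.sum_congr rfl fun a _ => ?_
  rw [deriv_eq, sg_add', mul_assoc]

lemma arith_end (p n c : ℕ) (hn1 : 1 ≤ n) (hn2 : 200 * n ≤ p + 2) (hn3 : p + 2 ≤ 400 * n)
    (j8 : p * (2 * n) * 12 ≤ c * 12 + (48 * (2 * n) ^ 2 + 11 * (2 * n) * (p + 2))) :
    (p + 2) ^ 2 ≤ 40000 * (c + 1) := by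
  have h1 : 200 * n * n ≤ (p + 2) * n := Nat.mul_le_mul_right n hn2
  have h2 : n ≤ n * n := Nat.le_mul_self n
  have j9 : 160 * (n * n) ≤ 12 * c := by nlinarith
  have h3 : (p + 2) ^ 2 ≤ (400 * n) ^ 2 := Nat.pow_le_pow_left hn3 2
  have h4 : (400 * n) ^ 2 = 160000 * (n * n) := by ring
  omega

theorem r_lower_of
    (moment_bound : ∀ (q k : ℕ) (α : (Fin q → ZMod 2) → (Fin q → ZMod 2) → ℝ),
      (∀ h, ∑ a, α h a ^ 2 ≤ 1) →
      (∑ B, gg α B ^ k) ^ 12 ≤ (2 ^ (q * q)) ^ 12 * 2 ^ (48 * k ^ 2 + 11 * k * q))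
    (q c : ℕ) (h : ROneWay (stab q) c) : q ^ 2 ≤ 40000 * (c + 1) := by
  obtain ⟨msg, α, hα, hsum⟩ := exists_tests q c h
  by_cases hq : q < 200
  · nlinarith
  obtain ⟨n, hn1, hn2, hn3⟩ : ∃ n, 1 ≤ n ∧ 200 * n ≤ q ∧ q ≤ 400 * n := ⟨q / 200, by omega, by omega, by omega⟩
  obtain ⟨j, hj⟩ : ∃ j, j + 1 = 2 * n := ⟨2 * n - 1, by omega⟩
  have hev : Even (j + 1) := by rw [hj]; exact even_two_mul n
  set N : ℝ := 2 ^ (q * q) with hN
  have hN0 : 0 < N := by positivity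
  have hcard : (Fintype.card (Matrix (Fin q) (Fin q) (ZMod 2)) : ℝ) = N := by
    rw [card_mat, hN]
    simp
  -- Jensen
  have j1 : (N * (2 ^ q / 3)) ^ (j + 1) ≤ N ^ j * ∑ B, gg (α (msg B)) B ^ (j + 1) := by
    calc (N * (2 ^ q / 3)) ^ (j + 1) ≤ (∑ B, |gg (α (msg B)) B|) ^ (j + 1) :=
          pow_le_pow_left₀ (by positivity)
            (hsum.trans (Finset.sum_le_sum fun B _ => le_abs_self _)) _
      _ ≤ ((univ : Finset (Matrix (Fin q) (Fin q) (ZMod 2))).card : ℝ) ^ j *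
            ∑ B, |gg (α (msg B)) B| ^ (j + 1) :=
          pow_sum_le_card_mul_sum_pow (fun B _ => abs_nonneg _) j
      _ = _ := by
          rw [Finset.card_univ, hcard]
          simp only [hev.pow_abs]
  have j2 : ∑ B, gg (α (msg B)) B ^ (j + 1) ≤ ∑ m, ∑ B, gg (α m) B ^ (j + 1) := by
    rw [Finset.sum_comm]
    exact Finset.sum_le_sum fun B _ =>
      Finset.single_le_sum (f := fun m => gg (α m) B ^ (j + 1))
        (fun m _ => hev.pow_nonneg _) (Finset.mem_univ (msg B))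
  obtain ⟨m₀, -, hm₀⟩ := Finset.exists_max_image (univ : Finset (Fin c → Bool))
    (fun m => ∑ B, gg (α m) B ^ (j + 1)) Finset.univ_nonempty
  have j3 : ∑ m, ∑ B, gg (α m) B ^ (j + 1) ≤ 2 ^ c * ∑ B, gg (α m₀) B ^ (j + 1) := by
    calc ∑ m, ∑ B, gg (α m) B ^ (j + 1) ≤ ∑ _m : Fin c → Bool, ∑ B, gg (α m₀) B ^ (j + 1) :=
          Finset.sum_le_sum fun m _ => hm₀ m (Finset.mem_univ _)
      _ = _ := by simp
  have hmb := moment_bound q (j + 1) (α m₀) (hα m₀)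
  rw [← hN] at hmb
  set T : ℝ := ∑ B, gg (α m₀) B ^ (j + 1) with hT
  have j4 : N * (2 ^ q / 3) ^ (j + 1) ≤ 2 ^ c * T := by
    have h1 : N ^ j * (N * (2 ^ q / 3) ^ (j + 1)) ≤ N ^ j * (2 ^ c * T) := by
      calc N ^ j * (N * (2 ^ q / 3) ^ (j + 1)) = (N * (2 ^ q / 3)) ^ (j + 1) := by
            rw [mul_pow]; ring
        _ ≤ _ := j1.trans (mul_le_mul_of_nonneg_left (j2.trans j3) (by positivity))
    exact le_of_mul_le_mul_left h1 (by positivity)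
  have j5 : N ^ 12 * ((2 ^ q / 3) ^ (j + 1)) ^ 12 ≤
      N ^ 12 * ((2 ^ c) ^ 12 * 2 ^ (48 * (j + 1) ^ 2 + 11 * (j + 1) * q)) := by
    calc N ^ 12 * ((2 ^ q / 3) ^ (j + 1)) ^ 12 = (N * (2 ^ q / 3) ^ (j + 1)) ^ 12 := by
          rw [mul_pow]
      _ ≤ (2 ^ c * T) ^ 12 := pow_le_pow_left₀ (by positivity) j4 _
      _ = (2 ^ c) ^ 12 * T ^ 12 := mul_pow _ _ _
      _ ≤ (2 ^ c) ^ 12 * (N ^ 12 * 2 ^ (48 * (j + 1) ^ 2 + 11 * (j + 1) * q)) :=
          mul_le_mul_of_nonneg_left hmb (by positivity)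
      _ = _ := by ring
  have j6 := le_of_mul_le_mul_left j5 (by positivity)
  have j7 : (2 : ℝ) ^ ((q - 2) * (j + 1) * 12) ≤
      2 ^ (c * 12 + (48 * (j + 1) ^ 2 + 11 * (j + 1) * q)) := by
    rw [pow_add, pow_mul, pow_mul, pow_mul]
    refine le_trans (pow_le_pow_left₀ (by positivity) (pow_le_pow_left₀ (by positivity) ?_ _) _) j6
    have h2 : (2 : ℝ) ^ q = 2 ^ (q - 2) * 4 := by
      rw [show q = (q - 2) + 2 by omega, pow_add]
      norm_num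
    rw [h2]
    have : (0 : ℝ) < 2 ^ (q - 2) := by positivity
    linarith
  have j8 := (pow_le_pow_iff_right₀ (by norm_num : (1 : ℝ) < 2)).1 j7
  obtain ⟨p, rfl⟩ : ∃ p, q = p + 2 := ⟨q - 2, by omega⟩
  rw [hj, Nat.add_sub_cancel] at j8
  exact arith_end p n c hn1 hn2 hn3 j8

end Pool.Agent.Lib.C3bba25.OW
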