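import Mathlib
import Pool.Agent.Lib.C3bba25.OW.Reduce

set_option autoImplicit false

open Finset Matrix
open scoped BigOperators

namespace Pool.Agent.Lib.C3bba25.OW

lemma sg_sum' {ι : Type} (s : Finset ι) (f : ι → ZMod 2) : sg (∑ i ∈ s, f i) = ∏ i ∈ s, sg (f i) := by
  classical
  induction s using Finset.induction_on with
  | empty => simp [sg_zero']
  | insert i s hi ih => rw [Finset.sum_insert hi, Finset.prod_insert hi, sg_add', ih]

lemma sum_sg_mat {q : ℕ} (G : Fin q → Fin q → ZMod 2) :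
    ∑ B : Matrix (Fin q) (Fin q) (ZMod 2), sg (∑ r, ∑ s, B r s * G r s) =
      if (∀ r s, G r s = 0) then (2 : ℝ) ^ (q * q) else 0 := by
  have h1 : ∑ B : Matrix (Fin q) (Fin q) (ZMod 2), sg (∑ r, ∑ s, B r s * G r s) =
      ∑ B : Fin q → Fin q → ZMod 2, ∏ r, sg (B r ⬝ᵥ G r) :=
    Finset.sum_congr rfl fun B _ => sg_sum' _ _
  rw [h1, ← Fintype.piFinset_univ, ← Finset.prod_univ_sum (fun _ => univ)
    (fun r (w : Fin q → ZMod 2) => sg (w ⬝ᵥ G r))]
  simp only [sum_sg_dot]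
  split_ifs with hG
  · have : ∀ r, G r = 0 := fun r => funext (hG r)
    simp [this, ← pow_mul]
  · obtain ⟨r, hr⟩ : ∃ r, G r ≠ 0 := by
      by_contra! h
      exact hG fun r s => congrFun (h r) s
    exact Finset.prod_eq_zero (Finset.mem_univ r) (if_neg hr)

lemma gg_pair {q : ℕ} (α : (Fin q → ZMod 2) → (Fin q → ZMod 2) → ℝ)
    (B : Matrix (Fin q) (Fin q) (ZMod 2)) :
    gg α B = ∑ p : (Fin q → ZMod 2) × (Fin q → ZMod 2),
      α (p.1 + p.2) p.1 * sg (p.1 ⬝ᵥ B.mulVec p.1 + p.2 ⬝ᵥ B.mulVec p.2) := by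
  unfold gg
  rw [Finset.sum_comm, Fintype.sum_prod_type]
  refine Finset.sum_congr rfl fun a _ => ?_
  rw [← Equiv.sum_comp (Equiv.addLeft a)]
  refine Finset.sum_congr rfl fun h _ => ?_
  have : a + (a + h) = h := by
    rw [← add_assoc, (add_eq_zero_iff' a a).2 rfl, zero_add]
  simp only [Equiv.coe_addLeft, this]

/-- Transposition of the index order. -/
def trM (q k : ℕ) : (Fin q → Fin k → ZMod 2 × ZMod 2) ≃
    (Fin k → (Fin q → ZMod 2) × (Fin q → ZMod 2)) where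
  toFun M i := (fun r => (M r i).1, fun r => (M r i).2)
  invFun f r i := ((f i).1 r, (f i).2 r)
  left_inv _ := rfl
  right_inv _ := rfl

theorem moment_of (q k : ℕ) (α : (Fin q → ZMod 2) → (Fin q → ZMod 2) → ℝ) :
    ∑ B, gg α B ^ k = 2 ^ (q * q) *
      ∑ M : Fin q → Fin k → ZMod 2 × ZMod 2 with
        (∀ r s, ∑ i, ((M r i).1 * (M s i).1 + (M r i).2 * (M s i).2) = 0),
        ∏ i, α ((fun r => (M r i).1) + fun r => (M r i).2) (fun r => (M r i).1) := by
  have h1 : ∀ B, gg α B ^ k = ∑ M : Fin q → Fin k → ZMod 2 × ZMod 2,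
      (∏ i, α ((fun r => (M r i).1) + fun r => (M r i).2) (fun r => (M r i).1)) *
        sg (∑ r, ∑ s, B r s * ∑ i, ((M r i).1 * (M s i).1 + (M r i).2 * (M s i).2)) := by
    intro B
    rw [gg_pair, ← Fin.prod_const, Finset.prod_univ_sum, Fintype.piFinset_univ,
      ← Equiv.sum_comp (trM q k)]
    refine Finset.sum_congr rfl fun M _ => ?_
    rw [Finset.prod_mul_distrib, ← sg_sum']
    congr 2
    simp only [trM, Equiv.coe_fn_mk, dotProduct, mulVec, Finset.mul_sum, ← Finset.sum_add_distrib]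
    rw [Finset.sum_comm]
    refine Finset.sum_congr rfl fun r _ => ?_
    rw [Finset.sum_comm]
    refine Finset.sum_congr rfl fun s _ => Finset.sum_congr rfl fun i _ => ?_
    ring
  simp only [h1]
  rw [Finset.sum_comm, Finset.sum_filter, Finset.mul_sum]
  refine Finset.sum_congr rfl fun M _ => ?_
  rw [← Finset.mul_sum, sum_sg_mat]
  split_ifs <;> simp [mul_comm]

theorem moment_bound_of
    (total : ∀ (k q : ℕ) (w : (Fin q → ZMod 2) → (Fin q → ZMod 2) → ℝ), (∀ a b, 0 ≤ w a b) →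
      (∀ h, ∑ a, w a (a + h) ^ 2 ≤ 1) →
      (∑ M : Fin q → Fin k → ZMod 2 × ZMod 2 with
        (∀ r s, ∑ i, ((M r i).1 * (M s i).1 + (M r i).2 * (M s i).2) = 0),
        ∏ i, w (fun r => (M r i).1) (fun r => (M r i).2)) ^ 12 ≤ 2 ^ (48 * k ^ 2 + 11 * k * q))
    (q k : ℕ) (α : (Fin q → ZMod 2) → (Fin q → ZMod 2) → ℝ) (hα : ∀ h, ∑ a, α h a ^ 2 ≤ 1) :
    (∑ B, gg α B ^ k) ^ 12 ≤ (2 ^ (q * q)) ^ 12 * 2 ^ (48 * k ^ 2 + 11 * k * q) := by
  rw [moment_of, mul_pow]
  refine mul_le_mul_of_nonneg_left ?_ (by positivity)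
  refine le_trans ?_ (total k q (fun a b => |α (a + b) a|) (fun _ _ => abs_nonneg _) fun h => ?_)
  · rw [← (by decide : Even 12).pow_abs]
    refine pow_le_pow_left₀ (abs_nonneg _) ((Finset.abs_sum_le_sum_abs _ _).trans ?_) _
    exact le_of_eq (Finset.sum_congr rfl fun M _ => Finset.abs_prod _ _)
  · refine le_trans (le_of_eq (Finset.sum_congr rfl fun a _ => ?_)) (hα h)
    have : a + (a + h) = h := by
      rw [← add_assoc, (add_eq_zero_iff' a a).2 rfl, zero_add]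
    rw [this, sq_abs]

end Pool.Agent.Lib.C3bba25.OW
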