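import Mathlib
import Pool.Agent.Lib.C3bba25.OW.Defs

set_option autoImplicit false

open Finset Matrix
open scoped BigOperators Kronecker

namespace Pool.Agent.Lib.C3bba25.OW

lemma qu_cases (x : ZMod 2) : x = 0 ∨ x = 1 := by revert x; decide

lemma qu_add (x y : ZMod 2) : sg (x + y) = sg x * sg y := by
  rcases qu_cases x with rfl | rfl <;> rcases qu_cases y with rfl | rfl <;>
    simp [sg, CharTwo.add_self_eq_zero]

lemma qu_sq (x : ZMod 2) : sg x * sg x = 1 := by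
  rw [← qu_add, CharTwo.add_self_eq_zero]
  simp [sg]

lemma qu_sum {q : ℕ} (l : Fin q → ZMod 2) (hl : l ≠ 0) : ∑ a, sg (l ⬝ᵥ a) = 0 := by
  obtain ⟨i, hi⟩ := Function.ne_iff.1 hl
  have h1 : l i = 1 := (qu_cases _).resolve_left hi
  have h2 := Equiv.sum_comp (Equiv.addRight (Pi.single i 1 : Fin q → ZMod 2))
    fun a => sg (l ⬝ᵥ a)
  have h3 : sg 1 = -1 := by simp [sg]
  simp only [Equiv.coe_addRight, dotProduct_add, qu_add, dotProduct_single, h1, ← sum_mul,
    mul_one, h3] at h2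
  linarith

lemma qu_two {V : Type} [Fintype V] (M : Matrix V V ℂ) (φ : V → ℂ) :
    ∑ s : V × V, ‖(M ⊗ₖ M).mulVec (fun s => φ s.1 * φ s.2) s‖ ^ 2 =
      (∑ a, ‖M.mulVec φ a‖ ^ 2) ^ 2 := by
  have h : ∀ s : V × V, (M ⊗ₖ M).mulVec (fun s => φ s.1 * φ s.2) s =
      M.mulVec φ s.1 * M.mulVec φ s.2 := by
    intro s
    obtain ⟨s, t⟩ := s
    simp only [mulVec, dotProduct, kroneckerMap_apply, Fintype.sum_prod_type, sum_mul_sum]
    exact sum_congr rfl fun _ _ => sum_congr rfl fun _ _ => by ring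
  rw [sq (∑ a, _), sum_mul_sum, Fintype.sum_prod_type]
  simp only [h, norm_mul, mul_pow]

/-- The signed shift. -/
noncomputable def quU {q : ℕ} (h w : Fin q → ZMod 2) (b : ZMod 2) :
    Matrix (Fin q → ZMod 2) (Fin q → ZMod 2) ℂ :=
  fun a a' => if a' = a + h then (sg (w ⬝ᵥ a + b) : ℂ) else 0

lemma qu_hh {q : ℕ} (a h : Fin q → ZMod 2) : a + h + h = a := by
  funext i
  simp [add_assoc, CharTwo.add_self_eq_zero]

lemma quU_herm {q : ℕ} (h w : Fin q → ZMod 2) (b : ZMod 2) (hw : w ⬝ᵥ h = 0) :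
    (quU h w b)ᴴ = quU h w b := by
  ext a a'
  simp only [conjTranspose_apply, quU]
  by_cases e : a' = a + h
  · subst e
    simp [qu_hh, dotProduct_add, hw]
  · rw [if_neg e, if_neg, star_zero]
    rintro rfl
    exact e (qu_hh _ _).symm

lemma quU_sq {q : ℕ} (h w : Fin q → ZMod 2) (b : ZMod 2) (hw : w ⬝ᵥ h = 0) :
    quU h w b * quU h w b = 1 := by
  ext a a'
  simp only [mul_apply, quU, ite_mul, zero_mul, sum_ite_eq', mem_univ, if_true]
  simp only [qu_hh, dotProduct_add, hw, add_zero, one_apply, mul_ite, mul_zero,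
    ← Complex.ofReal_mul, qu_sq]
  simp [eq_comm]

lemma qu_prob {q : ℕ} (B : Matrix (Fin q) (Fin q) (ZMod 2)) (h w : Fin q → ZMod 2) (b : ZMod 2)
    (r : ℝ) (hr : r ^ 2 * 2 ^ q = 1) :
    ∑ a, ‖((1 / 2 : ℂ) • (1 + quU h w b)).mulVec
        (fun a => ((r * sg (a ⬝ᵥ B.mulVec a) : ℝ) : ℂ)) a‖ ^ 2 =
      1 / 2 + r ^ 2 / 2 * sg (h ⬝ᵥ B.mulVec h + b) *
        ∑ a, sg (((B + Bᵀ).mulVec h + w) ⬝ᵥ a) := by
  have h1 : ∀ a, ((1 / 2 : ℂ) • (1 + quU h w b)).mulVec
      (fun a => ((r * sg (a ⬝ᵥ B.mulVec a) : ℝ) : ℂ)) a =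
      ((r * sg (a ⬝ᵥ B.mulVec a) * ((1 + sg (h ⬝ᵥ B.mulVec h + b) *
        sg (((B + Bᵀ).mulVec h + w) ⬝ᵥ a)) / 2) : ℝ) : ℂ) := by
    intro a
    have e : (Bᵀ.mulVec h) ⬝ᵥ a = h ⬝ᵥ B.mulVec a := by
      rw [mulVec_transpose, dotProduct_mulVec]
    rw [smul_mulVec, add_mulVec, one_mulVec]
    simp only [Pi.smul_apply, Pi.add_apply, smul_eq_mul]
    have e2 : (quU h w b).mulVec (fun a => ((r * sg (a ⬝ᵥ B.mulVec a) : ℝ) : ℂ)) a =
        ((sg (w ⬝ᵥ a + b) * (r * sg ((a + h) ⬝ᵥ B.mulVec (a + h))) : ℝ) : ℂ) := by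
      show ∑ a', quU h w b a a' * _ = _
      simp only [quU, ite_mul, zero_mul, sum_ite_eq', mem_univ, if_true]
      push_cast
      ring
    rw [e2]
    simp only [add_mulVec, mulVec_add, add_dotProduct, dotProduct_add, qu_add, e,
      dotProduct_comm (B.mulVec h) a]
    push_cast
    ring
  have h2 : ∀ s t u : ZMod 2, (r * sg s * ((1 + sg t * sg u) / 2)) ^ 2 =
      r ^ 2 / 2 + r ^ 2 / 2 * sg t * sg u := by
    intro s t u
    rcases qu_cases s with rfl | rfl <;> rcases qu_cases t with rfl | rfl <;>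
      rcases qu_cases u with rfl | rfl <;> simp [sg]
  simp only [h1, Complex.norm_real, Real.norm_eq_abs, sq_abs, h2, sum_add_distrib, ← mul_sum,
    sum_const, card_univ, Fintype.card_fun, ZMod.card, Fintype.card_fin, nsmul_eq_mul]
  push_cast
  linarith

theorem q_upper (q : ℕ) : QOneWay (stab q) (2 * q) := by
  obtain ⟨r, hr⟩ : ∃ r : ℝ, r ^ 2 * 2 ^ q = 1 :=
    ⟨√(1 / 2 ^ q), by rw [Real.sq_sqrt (by positivity)]; field_simp⟩
  let φ : Matrix (Fin q) (Fin q) (ZMod 2) → (Fin q → ZMod 2) → ℂ :=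
    fun B a => ((r * sg (a ⬝ᵥ B.mulVec a) : ℝ) : ℂ)
  let M : (Fin q → ZMod 2) × (Fin q → ZMod 2) × ZMod 2 →
      Matrix (Fin q → ZMod 2) (Fin q → ZMod 2) ℂ :=
    fun y => if y.2.1 ⬝ᵥ y.1 = 0 then (1 / 2 : ℂ) • (1 + quU y.1 y.2.1 y.2.2) else 0
  have hM : ∀ y, (M y)ᴴ = M y ∧ M y * M y = M y := by
    intro y
    by_cases e : y.2.1 ⬝ᵥ y.1 = 0
    · simp only [M, if_pos e]
      refine ⟨by simp [conjTranspose_smul, quU_herm _ _ _ e], ?_⟩
      simp only [smul_mul_assoc, mul_smul_comm, add_mul, mul_add, one_mul, mul_one,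
        quU_sq _ _ _ e]
      module
    · simp [M, if_neg e]
  refine ⟨(Fin q → ZMod 2) × (Fin q → ZMod 2), inferInstance,
    fun B s => φ B s.1 * φ B s.2, fun y => M y ⊗ₖ M y, ?_, fun B => ?_, fun y => ⟨?_, ?_⟩,
    fun B y => ?_⟩
  · simp [two_mul, pow_add]
  · have h1 : ∑ a, ‖φ B a‖ ^ 2 = 1 := by
      have h2 : ∀ s, (r * sg s) ^ 2 = r ^ 2 := fun s => by
        rw [mul_pow, sq (sg s), qu_sq, mul_one]
      simp only [φ, Complex.norm_real, Real.norm_eq_abs, sq_abs, h2, sum_const, card_univ,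
        Fintype.card_fun, ZMod.card, Fintype.card_fin, nsmul_eq_mul]
      push_cast
      linarith
    simp only [norm_mul, mul_pow, Fintype.sum_prod_type, ← mul_sum, h1, mul_one]
  · show (M y ⊗ₖ M y)ᴴ = _
    rw [conjTranspose_kronecker, (hM y).1]
  · rw [← mul_kronecker_mul, (hM y).2]
  · obtain ⟨h, w, b⟩ := y
    rw [qu_two]
    have hv : ∀ u v : Fin q → ZMod 2, u + v = 0 ↔ u = v := fun u v =>
      ⟨fun e => by rw [← qu_hh u v, e, zero_add], fun e => by
        rw [e, ← zero_add v, add_assoc, zero_add v, ← add_assoc, qu_hh]⟩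
    constructor
    · intro e
      obtain ⟨e1, e2⟩ : (B + Bᵀ).mulVec h = w ∧ h ⬝ᵥ B.mulVec h = b := of_decide_eq_true e
      have e3 : w ⬝ᵥ h = 0 := by
        rw [← e1, add_mulVec, add_dotProduct, mulVec_transpose, ← dotProduct_mulVec,
          dotProduct_comm, CharTwo.add_self_eq_zero]
      simp only [M, if_pos e3, φ]
      rw [qu_prob B h w b r hr, (hv _ _).2 e1, e2, CharTwo.add_self_eq_zero]
      simp only [zero_dotProduct, sg, if_true, sum_const, card_univ, Fintype.card_fun, ZMod.card,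
        Fintype.card_fin, nsmul_eq_mul]
      push_cast
      nlinarith
    · intro e
      have e0 : ¬ ((B + Bᵀ).mulVec h = w ∧ h ⬝ᵥ B.mulVec h = b) := of_decide_eq_false e
      by_cases e3 : w ⬝ᵥ h = 0
      · simp only [M, if_pos e3, φ]
        rw [qu_prob B h w b r hr]
        by_cases e1 : (B + Bᵀ).mulVec h = w
        · have e2 : h ⬝ᵥ B.mulVec h + b ≠ 0 := fun k =>
            e0 ⟨e1, CharTwo.add_eq_zero.1 k⟩
          rw [(hv _ _).2 e1]
          simp only [zero_dotProduct, sg, if_true, if_neg e2, sum_const, card_univ,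
            Fintype.card_fun, ZMod.card, Fintype.card_fin, nsmul_eq_mul]
          push_cast
          nlinarith
        · rw [qu_sum _ fun k => e1 ((hv _ _).1 k)]
          norm_num
      · simp [M, if_neg e3]

theorem r_upper (q : ℕ) : ROneWay (stab q) (q * q) := by
  refine ⟨Unit, inferInstance, fun _ => 1,
    fun _ B i => decide (B (finProdFinEquiv.symm i).1 (finProdFinEquiv.symm i).2 = 1),
    fun _ m y => stab q (Matrix.of fun i j => if m (finProdFinEquiv (i, j)) = true then 1 else 0) y,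
    fun _ => zero_le_one, by simp, fun B y => ?_⟩
  have h : (Matrix.of fun i j => if decide (B i j = 1) = true then (1 : ZMod 2) else 0) = B := by
    ext i j
    rcases qu_cases (B i j) with e | e <;> simp [e]
  simp only [Equiv.symm_apply_apply, h]
  norm_num

end Pool.Agent.Lib.C3bba25.OW
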