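import Mathlib
import Pool.Agent.Lib.C3bba25.OW.Code

set_option autoImplicit false

open Finset Module
open scoped BigOperators

namespace Pool.Agent.Lib.C3bba25.OW

theorem span_so_left {k : ℕ} (T : Set (Fin k → ZMod 2 × ZMod 2)) (y : Fin k → ZMod 2 × ZMod 2)
    (hT : ∀ x ∈ T, ∑ i, ((x i).1 * (y i).1 + (x i).2 * (y i).2) = 0) :
    ∀ x ∈ Submodule.span (ZMod 2) T, ∑ i, ((x i).1 * (y i).1 + (x i).2 * (y i).2) = 0 := by
  intro x hx
  induction hx using Submodule.span_induction with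
  | mem x hx => exact hT x hx
  | zero => simp
  | add a b _ _ ha hb =>
    rw [← add_zero (0 : ZMod 2)]
    nth_rewrite 1 [← ha, ← hb]
    rw [← sum_add_distrib]
    exact sum_congr rfl fun i _ => by simp only [Pi.add_apply, Prod.fst_add, Prod.snd_add]; ring
  | smul c a _ ha =>
    rw [← mul_zero c, ← ha, mul_sum]
    exact sum_congr rfl fun i _ => by
      simp only [Pi.smul_apply, Prod.smul_fst, Prod.smul_snd, smul_eq_mul]; ring

theorem span_so {k : ℕ} (T : Set (Fin k → ZMod 2 × ZMod 2))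
    (hT : ∀ x ∈ T, ∀ y ∈ T, ∑ i, ((x i).1 * (y i).1 + (x i).2 * (y i).2) = 0) :
    ∀ x ∈ Submodule.span (ZMod 2) T, ∀ y ∈ Submodule.span (ZMod 2) T,
      ∑ i, ((x i).1 * (y i).1 + (x i).2 * (y i).2) = 0 := by
  intro x hx y hy
  refine span_so_left T y (fun x hx => ?_) x hx
  have := span_so_left T x (fun y hy => hT y hy x hx) y hy
  rw [← this]
  exact sum_congr rfl fun i _ => by ring

theorem exists_gen {k : ℕ} (L : Submodule (ZMod 2) (Fin k → ZMod 2 × ZMod 2))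
    (hL : finrank (ZMod 2) L ≤ k) :
    ∃ g : Fin k → Fin k → ZMod 2 × ZMod 2, Submodule.span (ZMod 2) (Set.range g) = L := by
  let b := Module.finBasis (ZMod 2) L
  refine ⟨fun j => if h : j.1 < finrank (ZMod 2) L then (b ⟨j.1, h⟩).1 else 0, le_antisymm ?_ ?_⟩
  · refine Submodule.span_le.2 ?_
    rintro _ ⟨j, rfl⟩
    by_cases h : j.1 < finrank (ZMod 2) L
    · simp only [dif_pos h]; exact (b ⟨j.1, h⟩).2
    · simp only [dif_neg h]; exact L.zero_mem
  · intro x hx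
    have h1 : x = ∑ j, b.repr ⟨x, hx⟩ j • (b j).1 := by
      have := congrArg L.subtype (b.sum_repr ⟨x, hx⟩)
      rw [map_sum] at this
      exact this.symm
    rw [h1]
    refine Submodule.sum_mem _ fun j _ => Submodule.smul_mem _ _ (Submodule.subset_span ?_)
    exact ⟨⟨j.1, lt_of_lt_of_le j.2 hL⟩, by simp only [dif_pos j.2]⟩

theorem total_bound' {k q : ℕ} (w : (Fin q → ZMod 2) → (Fin q → ZMod 2) → ℝ)
    (h0 : ∀ a b, 0 ≤ w a b) (h2 : ∀ h, ∑ a, w a (a + h) ^ 2 ≤ 1)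
    (s : Finset (Fin q → Fin k → ZMod 2 × ZMod 2))
    (hs : ∀ M ∈ s, ∀ r r', ∑ i, ((M r i).1 * (M r' i).1 + (M r i).2 * (M r' i).2) = 0) :
    (∑ M ∈ s, ∏ i, w (fun r => (M r i).1) (fun r => (M r i).2)) ^ 12 ≤
      2 ^ (24 * k ^ 2 + 11 * k * q) := by
  classical
  have hso : ∀ M ∈ s, ∀ x ∈ Submodule.span (ZMod 2) (Set.range M),
      ∀ y ∈ Submodule.span (ZMod 2) (Set.range M),
        ∑ i, ((x i).1 * (y i).1 + (x i).2 * (y i).2) = 0 := by
    intro M hM
    refine span_so _ ?_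
    rintro _ ⟨r, rfl⟩ _ ⟨r', rfl⟩
    exact hs M hM r r'
  have hex : ∀ M : Fin q → Fin k → ZMod 2 × ZMod 2, ∃ g : Fin k → Fin k → ZMod 2 × ZMod 2,
      M ∈ s → Submodule.span (ZMod 2) (Set.range g) = Submodule.span (ZMod 2) (Set.range M) := by
    intro M
    by_cases hM : M ∈ s
    · obtain ⟨g, hg⟩ := exists_gen _ (so_rank2 _ (hso M hM))
      exact ⟨g, fun _ => hg⟩
    · exact ⟨0, fun h => absurd h hM⟩
  choose code hcode using hex
  let T : (Fin k → Fin k → ZMod 2 × ZMod 2) → ℝ := fun g =>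
    ∑ M ∈ s with code M = g, ∏ i, w (fun r => (M r i).1) (fun r => (M r i).2)
  have hT0 : ∀ g, 0 ≤ T g := fun g => sum_nonneg fun M _ => prod_nonneg fun i _ => h0 _ _
  have hT : ∀ g, T g ^ 12 ≤ 2 ^ (11 * k * q) := by
    intro g
    rcases (s.filter fun M => code M = g).eq_empty_or_nonempty with h | ⟨M0, hM0⟩
    · simp only [T, h, sum_empty]
      norm_num
    · obtain ⟨hM0, h1⟩ := mem_filter.1 hM0
      refine code_bound_fin w (Submodule.span (ZMod 2) (Set.range M0)) (hso M0 hM0) h0 h2 _ ?_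
      intro M hM r
      obtain ⟨hM, h3⟩ := mem_filter.1 hM
      rw [← hcode M0 hM0, h1, ← h3, hcode M hM]
      exact Submodule.subset_span ⟨r, rfl⟩
  obtain ⟨g0, _, hg0⟩ := Finset.exists_max_image univ T univ_nonempty
  have h4 : ∑ M ∈ s, ∏ i, w (fun r => (M r i).1) (fun r => (M r i).2) ≤
      2 ^ (2 * k ^ 2) * T g0 := by
    rw [← Finset.sum_fiberwise s code]
    refine (sum_le_sum fun g hg => hg0 g hg).trans (le_of_eq ?_)
    rw [sum_const, nsmul_eq_mul, card_univ]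
    congr 1
    simp only [Fintype.card_fun, Fintype.card_prod, ZMod.card, Fintype.card_fin]
    push_cast
    rw [← pow_mul, show (4 : ℝ) = 2 ^ 2 by norm_num, ← pow_mul]
    congr 1
    ring
  refine (pow_le_pow_left₀ (sum_nonneg fun M _ => prod_nonneg fun i _ => h0 _ _) h4 12).trans ?_
  rw [mul_pow, ← pow_mul, pow_add, show 2 * k ^ 2 * 12 = 24 * k ^ 2 by ring]
  exact mul_le_mul_of_nonneg_left (hT g0) (by positivity)

theorem total_bound {k q : ℕ} (w : (Fin q → ZMod 2) → (Fin q → ZMod 2) → ℝ)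
    (h0 : ∀ a b, 0 ≤ w a b) (h2 : ∀ h, ∑ a, w a (a + h) ^ 2 ≤ 1)
    (s : Finset (Fin q → Fin k → ZMod 2 × ZMod 2))
    (hs : ∀ M ∈ s, ∀ r r', ∑ i, ((M r i).1 * (M r' i).1 + (M r i).2 * (M r' i).2) = 0) :
    (∑ M ∈ s, ∏ i, w (fun r => (M r i).1) (fun r => (M r i).2)) ^ 12 ≤
      2 ^ (48 * k ^ 2 + 11 * k * q) :=
  (total_bound' w h0 h2 s hs).trans (pow_le_pow_right₀ (by norm_num) (by omega))

end Pool.Agent.Lib.C3bba25.OW
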