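import Mathlib
import Pool.Agent.Lib.C3bba25.OW.Moment
import Pool.Agent.Lib.C3bba25.OW.Union
import Pool.Agent.Lib.C3bba25.OW.Quant

set_option autoImplicit false

open Finset Matrix
open scoped BigOperators Kronecker

namespace Pool.Agent.Lib.C3bba25.OW

open Classical in
/-- Subgroup membership: Alice holds a subgroup `H` of `G`, Bob an element `g`. -/
noncomputable def memb (G : Type) [Group G] (H : Subgroup G) (g : G) : Bool := decide (g ∈ H)

lemma memb_iff {G : Type} [Group G] (H : Subgroup G) (g : G) : memb G H g = true ↔ g ∈ H := by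
  simp [memb]

/-- Averaging over an involution. -/
noncomputable def invP {V : Type} [DecidableEq V] (σ : V → V) : Matrix V V ℂ :=
  (1 / 2 : ℂ) • (1 + Matrix.of fun a b => if b = σ a then (1 : ℂ) else 0)

lemma invP_mulVec {V : Type} [Fintype V] [DecidableEq V] (σ : V → V) (φ : V → ℂ) (a : V) :
    (invP σ).mulVec φ a = (φ a + φ (σ a)) / 2 := by
  rw [invP, smul_mulVec, add_mulVec, one_mulVec]
  simp only [Pi.smul_apply, Pi.add_apply, mulVec, dotProduct, of_apply, ite_mul, one_mul, zero_mul,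
    sum_ite_eq', mem_univ, if_true, smul_eq_mul]
  ring

lemma invP_proj {V : Type} [Fintype V] [DecidableEq V] (σ : V → V) (hσ : ∀ a, σ (σ a) = a) :
    (invP σ)ᴴ = invP σ ∧ invP σ * invP σ = invP σ := by
  have h1 : (Matrix.of fun a b => if b = σ a then (1 : ℂ) else 0)ᴴ =
      Matrix.of fun a b => if b = σ a then (1 : ℂ) else 0 := by
    ext a b
    simp only [conjTranspose_apply, of_apply]
    by_cases e : b = σ a
    · subst e
      simp [hσ]
    · rw [if_neg e, if_neg, star_zero]
      rintro rfl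
      exact e (hσ b).symm
  have h2 : (Matrix.of fun a b => if b = σ a then (1 : ℂ) else 0) *
      (Matrix.of fun a b => if b = σ a then (1 : ℂ) else 0) = 1 := by
    ext a b
    simp only [Matrix.mul_apply, of_apply, ite_mul, one_mul, zero_mul, sum_ite_eq', mem_univ,
      if_true, hσ, one_apply, eq_comm]
  refine ⟨by rw [invP, conjTranspose_smul, conjTranspose_add, conjTranspose_one, h1]; simp, ?_⟩
  simp only [invP, smul_mul_assoc, mul_smul_comm, add_mul, mul_add, one_mul, mul_one, h2]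
  module

theorem memb_q_upper (G : Type) [Group G] [Fintype G] (e : ℕ) (he : Fintype.card G ≤ 2 ^ e) :
    QOneWay (memb G) (2 * e + 2) := by
  classical
  have hr : ∀ H : Subgroup G, ∃ r : ℝ,
      r ^ 2 * (2 * ((univ.filter fun a : G => a ∈ H).card : ℝ)) = 1 := by
    intro H
    have : 0 < ((univ.filter fun a : G => a ∈ H).card : ℝ) := by
      exact_mod_cast card_pos.2 ⟨1, mem_filter.2 ⟨mem_univ _, H.one_mem⟩⟩
    exact ⟨√(1 / (2 * ((univ.filter fun a : G => a ∈ H).card : ℝ))), by
      rw [Real.sq_sqrt (by positivity)]; field_simp⟩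
  choose r hr using hr
  let f : Subgroup G → G × Bool → ℝ := fun H s => if s.1 ∈ H then r H else 0
  let φ : Subgroup G → G × Bool → ℂ := fun H s => (f H s : ℂ)
  let σ : G → G × Bool → G × Bool := fun g s =>
    if s.2 = true then (s.1 * g⁻¹, false) else (s.1 * g, true)
  have hσ : ∀ g s, σ g (σ g s) = s := by
    rintro g ⟨a, b⟩
    cases b <;> simp [σ]
  have hf : ∀ H, ∑ s, f H s ^ 2 = 1 := by
    intro H
    rw [Fintype.sum_prod_type, ← hr H]
    simp only [f, ite_pow, ne_eq, OfNat.ofNat_ne_zero, not_false_eq_true, zero_pow, sum_const,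
      card_univ, Fintype.card_bool, nsmul_eq_mul, ← mul_sum, ← sum_filter]
    push_cast
    ring
  have hφ : ∀ H, ∑ s, ‖φ H s‖ ^ 2 = 1 := by
    intro H
    simp only [φ, Complex.norm_real, Real.norm_eq_abs, sq_abs, hf]
  have hP : ∀ H g s, ‖(invP (σ g)).mulVec (φ H) s‖ ^ 2 = ((f H s + f H (σ g s)) / 2) ^ 2 := by
    intro H g s
    have : (φ H s + φ H (σ g s)) / 2 = (((f H s + f H (σ g s)) / 2 : ℝ) : ℂ) := by
      simp only [φ]; push_cast; ring
    rw [invP_mulVec, this, Complex.norm_real, Real.norm_eq_abs, sq_abs]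
  refine ⟨(G × Bool) × (G × Bool), inferInstance, fun H s => φ H s.1 * φ H s.2,
    fun g => invP (σ g) ⊗ₖ invP (σ g), ?_, fun H => ?_, fun g => ⟨?_, ?_⟩, fun H g => ?_⟩
  · simp only [Fintype.card_prod, Fintype.card_bool]
    calc Fintype.card G * 2 * (Fintype.card G * 2) ≤ 2 ^ e * 2 * (2 ^ e * 2) := by gcongr
      _ = 2 ^ (2 * e + 2) := by ring
  · rw [Fintype.sum_prod_type]
    simp only [norm_mul, mul_pow, ← mul_sum, hφ, mul_one]
  · show (invP (σ g) ⊗ₖ invP (σ g))ᴴ = _
    rw [conjTranspose_kronecker, (invP_proj _ (hσ g)).1]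
  · rw [← mul_kronecker_mul, (invP_proj _ (hσ g)).2]
  · rw [qu_two]
    simp only [hP]
    constructor
    · intro e1
      have hg := (memb_iff H g).1 e1
      have h1 : ∀ s, f H (σ g s) = f H s := by
        rintro ⟨a, b⟩
        cases b
        · simp [f, σ, H.mul_mem_cancel_right hg]
        · simp [f, σ, H.mul_mem_cancel_right (H.inv_mem hg)]
      simp only [h1, add_self_div_two, hf]
      norm_num
    · intro e1
      have hg : g ∉ H := fun h => by
        rw [(memb_iff H g).2 h] at e1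
        exact Bool.noConfusion e1
      have h1 : ∀ s, f H s * f H (σ g s) = 0 := by
        rintro ⟨a, b⟩
        by_cases ha : a ∈ H
        · cases b
          · simp [f, σ, H.mul_mem_cancel_left ha, hg]
          · simp [f, σ, H.mul_mem_cancel_left ha, hg]
        · simp [f, ha]
      have h2 : ∑ s, f H (σ g s) ^ 2 = 1 := by
        rw [← hf H]
        exact Equiv.sum_comp (Function.Involutive.toPerm (σ g) (hσ g)) fun s => f H s ^ 2
      have h3 : ∑ s, ((f H s + f H (σ g s)) / 2) ^ 2 =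
          (∑ s, f H s ^ 2 + ∑ s, f H (σ g s) ^ 2) / 4 := by
        rw [← sum_add_distrib, sum_div]
        exact sum_congr rfl fun s _ => by linear_combination (h1 s) / 2
      rw [h3, hf, h2]
      norm_num

lemma exists_gens {G : Type} [Group G] [Fintype G] (H : Subgroup G) (j : ℕ) :
    ∃ g : Fin j → G, Subgroup.closure (Set.range g) ≤ H ∧
      (Subgroup.closure (Set.range g) = H ∨ 2 ^ j ≤ Nat.card (Subgroup.closure (Set.range g))) := by
  induction j with
  | zero =>
    refine ⟨Fin.elim0, ?_, Or.inr Nat.card_pos⟩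
    rw [Subgroup.closure_le]
    rintro _ ⟨i, rfl⟩
    exact i.elim0
  | succ j ih =>
    obtain ⟨g, h1, h2⟩ := ih
    have key : ∀ x ∈ H, Subgroup.closure (Set.range (Fin.cons x g : Fin (j + 1) → G)) ≤ H ∧
        Subgroup.closure (Set.range g) ≤
          Subgroup.closure (Set.range (Fin.cons x g : Fin (j + 1) → G)) ∧
        x ∈ Subgroup.closure (Set.range (Fin.cons x g : Fin (j + 1) → G)) := by
      intro x hx
      rw [Fin.range_cons]
      refine ⟨?_, Subgroup.closure_mono (Set.subset_insert _ _),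
        Subgroup.subset_closure (Set.mem_insert _ _)⟩
      rw [Subgroup.closure_le]
      exact Set.insert_subset hx fun y hy => h1 (Subgroup.subset_closure hy)
    by_cases h3 : Subgroup.closure (Set.range g) = H
    · obtain ⟨k1, k2, _⟩ := key 1 H.one_mem
      exact ⟨Fin.cons 1 g, k1, Or.inl (le_antisymm k1 (h3.ge.trans k2))⟩
    · obtain ⟨x, hx, hx'⟩ := SetLike.exists_of_lt (lt_of_le_of_ne h1 h3)
      obtain ⟨k1, k2, k3⟩ := key x hx
      refine ⟨Fin.cons x g, k1, Or.inr ?_⟩
      obtain ⟨m, hm⟩ := Subgroup.card_dvd_of_le k2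
      have h4 := h2.resolve_left h3
      have h5 : m ≠ 0 := by
        rintro rfl
        exact (Nat.card_pos (α := Subgroup.closure
          (Set.range (Fin.cons x g : Fin (j + 1) → G)))).ne' (by simpa using hm)
      have h6 : m ≠ 1 := by
        rintro rfl
        have := Subgroup.eq_of_le_of_card_ge k2 (by rw [hm, mul_one])
        exact hx' (this ▸ k3)
      rw [hm, pow_succ]
      exact Nat.mul_le_mul h4 (by omega)

theorem memb_r_upper (G : Type) [Group G] [Fintype G] (e : ℕ) (he : Fintype.card G ≤ 2 ^ e) :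
    ROneWay (memb G) (e * e) := by
  classical
  have h1 : ∀ H : Subgroup G, ∃ g : Fin e → G, Subgroup.closure (Set.range g) = H := by
    intro H
    obtain ⟨g, k1, k2⟩ := exists_gens H e
    refine ⟨g, k2.elim id fun k3 => Subgroup.eq_of_le_of_card_ge k1 (le_trans ?_ k3)⟩
    exact (Subgroup.card_le_card_group H).trans (by rwa [Nat.card_eq_fintype_card])
  choose gen hgen using h1
  obtain ⟨enc⟩ : Nonempty ((Fin e → G) ↪ (Fin (e * e) → Bool)) := by
    refine Function.Embedding.nonempty_of_card_le ?_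
    simp only [Fintype.card_fun, Fintype.card_fin, Fintype.card_bool]
    rw [pow_mul]
    exact Nat.pow_le_pow_left he e
  refine ⟨Unit, inferInstance, fun _ => 1, fun _ H => enc (gen H),
    fun _ m g => memb G (Subgroup.closure (Set.range (Function.invFun enc m))) g,
    fun _ => zero_le_one, by simp, fun H g => ?_⟩
  simp only [Function.leftInverse_invFun enc.injective (gen H), hgen]
  norm_num

/-- The Heisenberg group over the field with two elements. -/
structure Heis (q : ℕ) where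
  h : Fin q → ZMod 2
  w : Fin q → ZMod 2
  b : ZMod 2

lemma Heis.ext' {q : ℕ} {x y : Heis q} (h1 : x.h = y.h) (h2 : x.w = y.w) (h3 : x.b = y.b) :
    x = y := by
  cases x; cases y
  simp only [Heis.mk.injEq]
  exact ⟨h1, h2, h3⟩

instance (q : ℕ) : Mul (Heis q) := ⟨fun x y => ⟨x.h + y.h, x.w + y.w, x.b + y.b + x.w ⬝ᵥ y.h⟩⟩

instance (q : ℕ) : One (Heis q) := ⟨⟨0, 0, 0⟩⟩

instance (q : ℕ) : Inv (Heis q) := ⟨fun x => ⟨-x.h, -x.w, -x.b + x.w ⬝ᵥ x.h⟩⟩

instance (q : ℕ) : Group (Heis q) :=
  Group.ofLeftAxioms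
    (fun x y z => Heis.ext' (add_assoc x.h y.h z.h) (add_assoc x.w y.w z.w) (by
      change x.b + y.b + x.w ⬝ᵥ y.h + z.b + (x.w + y.w) ⬝ᵥ z.h =
        x.b + (y.b + z.b + y.w ⬝ᵥ z.h) + x.w ⬝ᵥ (y.h + z.h)
      rw [add_dotProduct, dotProduct_add]
      ring))
    (fun x => Heis.ext' (zero_add x.h) (zero_add x.w) (by
      change 0 + x.b + (0 : Fin q → ZMod 2) ⬝ᵥ x.h = x.b
      rw [zero_dotProduct]
      ring))
    (fun x => Heis.ext' (neg_add_cancel x.h) (neg_add_cancel x.w) (by
      change -x.b + x.w ⬝ᵥ x.h + x.b + (-x.w) ⬝ᵥ x.h = 0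
      rw [neg_dotProduct]
      ring))

/-- Coordinates on the Heisenberg group. -/
def heisEquiv (q : ℕ) : (Fin q → ZMod 2) × (Fin q → ZMod 2) × ZMod 2 ≃ Heis q where
  toFun y := ⟨y.1, y.2.1, y.2.2⟩
  invFun x := (x.h, x.w, x.b)
  left_inv _ := rfl
  right_inv _ := rfl

/-- The stabilizer group of a quadratic phase state. -/
def stabGrp {q : ℕ} (B : Matrix (Fin q) (Fin q) (ZMod 2)) : Subgroup (Heis q) where
  carrier := {x | (B + Bᵀ).mulVec x.h = x.w ∧ x.h ⬝ᵥ B.mulVec x.h = x.b}
  mul_mem' := by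
    rintro x y ⟨h1, h2⟩ ⟨h3, h4⟩
    constructor
    · change (B + Bᵀ).mulVec (x.h + y.h) = x.w + y.w
      rw [mulVec_add, h1, h3]
    · change (x.h + y.h) ⬝ᵥ B.mulVec (x.h + y.h) = x.b + y.b + x.w ⬝ᵥ y.h
      rw [← h1, ← h2, ← h4, mulVec_add, add_dotProduct, dotProduct_add, dotProduct_add, add_mulVec,
        add_dotProduct, mulVec_transpose, ← dotProduct_mulVec, dotProduct_comm (B.mulVec x.h) y.h]
      ring
  one_mem' := by
    constructor
    · change (B + Bᵀ).mulVec 0 = 0
      rw [mulVec_zero]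
    · change (0 : Fin q → ZMod 2) ⬝ᵥ B.mulVec 0 = 0
      rw [zero_dotProduct]
  inv_mem' := by
    rintro x ⟨h1, h2⟩
    constructor
    · change (B + Bᵀ).mulVec (-x.h) = -x.w
      rw [mulVec_neg, h1]
    · change (-x.h) ⬝ᵥ B.mulVec (-x.h) = -x.b + x.w ⬝ᵥ x.h
      rw [← h1, ← h2, mulVec_neg, neg_dotProduct, dotProduct_neg, add_mulVec, add_dotProduct,
        mulVec_transpose, ← dotProduct_mulVec, dotProduct_comm (B.mulVec x.h) x.h]
      ring

theorem stab_of_memb (q c : ℕ) (h : ROneWay (memb (Heis q)) c) : ROneWay (stab q) c := by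
  obtain ⟨Ω, _, μ, msg, out, h1, h2, h3⟩ := h
  refine ⟨Ω, inferInstance, μ, fun ω B => msg ω (stabGrp B),
    fun ω m y => out ω m (heisEquiv q y), h1, h2, fun B y => ?_⟩
  have : stab q B y = memb (Heis q) (stabGrp B) (heisEquiv q y) := by
    rw [Bool.eq_iff_iff, memb_iff, stab, decide_eq_true_iff]
    rfl
  rw [this]
  exact h3 _ _

theorem memb_gap (q : ℕ) : ∃ (G : Type) (_ : Group G) (_ : Fintype G),
    Fintype.card G = 2 ^ (2 * q + 1) ∧ QOneWay (memb G) (4 * q + 4) ∧
      ROneWay (memb G) ((2 * q + 1) * (2 * q + 1)) ∧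
      ∀ c, ROneWay (memb G) c → q ^ 2 ≤ 40000 * (c + 1) := by
  let _ : Fintype (Heis q) := Fintype.ofEquiv _ (heisEquiv q)
  have hc : Fintype.card (Heis q) = 2 ^ (2 * q + 1) := by
    rw [← Fintype.card_congr (heisEquiv q)]
    simp only [Fintype.card_prod, Fintype.card_fun, ZMod.card, Fintype.card_fin]
    ring
  refine ⟨Heis q, inferInstance, inferInstance, hc, ?_, memb_r_upper _ _ hc.le, fun c h => ?_⟩
  · have := memb_q_upper (Heis q) _ hc.le
    rwa [show 2 * (2 * q + 1) + 2 = 4 * q + 4 by ring] at this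
  · exact r_lower_of (moment_bound_of fun _ _ w h0 h2 =>
      total_bound w h0 h2 _ fun _ hM => (Finset.mem_filter.1 hM).2) q c (stab_of_memb q c h)

end Pool.Agent.Lib.C3bba25.OW
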