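import Mathlib
import Pool.Agent.Lib.C3bba25.OW.Moment
import Pool.Agent.Lib.C3bba25.OW.Union
import Pool.Agent.Lib.C3bba25.OW.Quant

set_option autoImplicit false

namespace Pool.Agent.Lib.C3bba25.OW.OldGap

open Pool.Agent.Lib.C3bba25.OW

theorem result (q : ℕ) : QOneWay (stab q) (2 * q) ∧ ROneWay (stab q) (q * q) ∧
    ∀ c, ROneWay (stab q) c → q ^ 2 ≤ 40000 * (c + 1) :=
  ⟨q_upper q, r_upper q, r_lower_of (moment_bound_of fun _ _ w h0 h2 =>
    total_bound w h0 h2 _ fun _ hM => (Finset.mem_filter.1 hM).2) q⟩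

end Pool.Agent.Lib.C3bba25.OW.OldGap
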