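import Mathlib
import Pool.Agent.Lib.C3bba25.OW.Defs

set_option autoImplicit false

open Finset Matrix
open scoped BigOperators

namespace Pool.Agent.Lib.C3bba25.OW

/-- Simultaneous quantum protocol: Alice and Bob each send a unit vector of dimension at most
`2 ^ c` to a referee, who measures the product state with one fixed projector. -/
def QSimul {X Y : Type} (f : X → Y → Bool) (c : ℕ) : Prop :=
  ∃ (ι κ : Type) (_ : Fintype ι) (_ : Fintype κ) (ψ : X → ι → ℂ) (φ : Y → κ → ℂ)
    (P : Matrix (ι × κ) (ι × κ) ℂ),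
    Fintype.card ι ≤ 2 ^ c ∧ Fintype.card κ ≤ 2 ^ c ∧
    (∀ x, ∑ s, ‖ψ x s‖ ^ 2 = 1) ∧ (∀ y, ∑ t, ‖φ y t‖ ^ 2 = 1) ∧ P.IsHermitian ∧ P * P = P ∧
    ∀ x y, (f x y = true → (2 : ℝ) / 3 ≤ ∑ s, ‖P.mulVec (fun p => ψ x p.1 * φ y p.2) s‖ ^ 2) ∧
      (f x y = false → ∑ s, ‖P.mulVec (fun p => ψ x p.1 * φ y p.2) s‖ ^ 2 ≤ (1 : ℝ) / 3)

theorem simul_of_oneWay {X Y : Type} [Fintype Y] (f : X → Y → Bool) (c e : ℕ) (hce : c ≤ e)
    (hY : Fintype.card Y ≤ 2 ^ e) (h : QOneWay f c) : QSimul f e := by
  classical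
  obtain ⟨ι, _, ψ, P, hι, hψ, hP, hf⟩ := h
  refine ⟨ι, Y, inferInstance, inferInstance, ψ, fun y t => if t = y then 1 else 0,
    fun s t => if s.2 = t.2 then P s.2 s.1 t.1 else 0,
    hι.trans (Nat.pow_le_pow_right (by norm_num) hce), hY, hψ, fun y => ?_, ?_, ?_, fun x y => ?_⟩
  · rw [Finset.sum_eq_single y] <;> simp +contextual
  · ext ⟨i, y⟩ ⟨j, y'⟩
    simp only [conjTranspose_apply]
    by_cases hy : y = y'
    · subst hy
      simpa using (hP y).1.apply i j
    · simp [hy, Ne.symm hy]
  · ext ⟨i, y⟩ ⟨j, y'⟩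
    simp only [Matrix.mul_apply, Fintype.sum_prod_type]
    have h2 := congrFun (congrFun (hP y).2 i) j
    rw [Matrix.mul_apply] at h2
    by_cases hy : y = y'
    · subst hy
      rw [if_pos rfl, ← h2]
      refine Finset.sum_congr rfl fun l _ => ?_
      rw [Finset.sum_eq_single y]
      · simp
      · intro z _ hz
        simp [hz]
      · simp
    · rw [if_neg hy]
      refine Finset.sum_eq_zero fun l _ => Finset.sum_eq_zero fun z _ => ?_
      by_cases hz : y = z
      · subst hz
        simp [hy]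
      · simp [hz]
  · have key : ∑ s : ι × Y, ‖Matrix.mulVec (fun s t : ι × Y => if s.2 = t.2 then P s.2 s.1 t.1 else 0)
        (fun p => ψ x p.1 * if p.2 = y then 1 else 0) s‖ ^ 2 = ∑ s, ‖(P y).mulVec (ψ x) s‖ ^ 2 := by
      rw [Fintype.sum_prod_type]
      refine Finset.sum_congr rfl fun i _ => ?_
      have h3 : ∀ z, Matrix.mulVec (fun s t : ι × Y => if s.2 = t.2 then P s.2 s.1 t.1 else 0)
          (fun p => ψ x p.1 * if p.2 = y then 1 else 0) (i, z) =
          if z = y then (P y).mulVec (ψ x) i else 0 := by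
        intro z
        simp only [mulVec, dotProduct, Fintype.sum_prod_type]
        by_cases hz : z = y
        · subst hz
          rw [if_pos rfl]
          refine Finset.sum_congr rfl fun l _ => ?_
          rw [Finset.sum_eq_single z]
          · simp
          · intro w _ hw
            simp [hw]
          · simp
        · rw [if_neg hz]
          refine Finset.sum_eq_zero fun l _ => Finset.sum_eq_zero fun w _ => ?_
          by_cases hw : z = w
          · subst hw
            simp [hz]
          · simp [hw]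
      simp only [h3]
      rw [Finset.sum_eq_single y]
      · simp
      · intro z _ hz
        simp [hz]
      · simp
    rw [key]
    exact hf x y

end Pool.Agent.Lib.C3bba25.OW
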