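import Mathlib
import Pool.Agent.Lib.C3bba25.OW.Quant

set_option autoImplicit false

open Finset Matrix
open scoped BigOperators Kronecker

namespace Pool.Agent.Lib.C3bba25.OW

/-- Two copies of the quadratic phase state, with amplitude `r`. -/
noncomputable def xqState {q : ℕ} (r : ℝ) (B : Matrix (Fin q) (Fin q) (ZMod 2))
    (s : (Fin q → ZMod 2) × (Fin q → ZMod 2)) : ℂ :=
  ((r * sg (s.1 ⬝ᵥ B.mulVec s.1) : ℝ) : ℂ) * ((r * sg (s.2 ⬝ᵥ B.mulVec s.2) : ℝ) : ℂ)

/-- The protocol of `q_upper` with its states written out. -/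
theorem xq_explicit (q : ℕ) : ∃ (r : ℝ)
    (P : (Fin q → ZMod 2) × (Fin q → ZMod 2) × ZMod 2 →
      Matrix ((Fin q → ZMod 2) × (Fin q → ZMod 2)) ((Fin q → ZMod 2) × (Fin q → ZMod 2)) ℂ),
    (∀ B : Matrix (Fin q) (Fin q) (ZMod 2), ∑ s, ‖xqState r B s‖ ^ 2 = 1) ∧
    (∀ y, (P y).IsHermitian ∧ P y * P y = P y) ∧
    ∀ B y, (stab q B y = true → (2 : ℝ) / 3 ≤ ∑ s, ‖(P y).mulVec (xqState r B) s‖ ^ 2) ∧
      (stab q B y = false → ∑ s, ‖(P y).mulVec (xqState r B) s‖ ^ 2 ≤ (1 : ℝ) / 3) := by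
  obtain ⟨r, hr⟩ : ∃ r : ℝ, r ^ 2 * 2 ^ q = 1 :=
    ⟨√(1 / 2 ^ q), by rw [Real.sq_sqrt (by positivity)]; field_simp⟩
  let φ : Matrix (Fin q) (Fin q) (ZMod 2) → (Fin q → ZMod 2) → ℂ :=
    fun B a => ((r * sg (a ⬝ᵥ B.mulVec a) : ℝ) : ℂ)
  let M : (Fin q → ZMod 2) × (Fin q → ZMod 2) × ZMod 2 →
      Matrix (Fin q → ZMod 2) (Fin q → ZMod 2) ℂ :=
    fun y => if y.2.1 ⬝ᵥ y.1 = 0 then (1 / 2 : ℂ) • (1 + quU y.1 y.2.1 y.2.2) else 0
  have hM : ∀ y, (M y)ᴴ = M y ∧ M y * M y = M y := by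
    intro y
    by_cases e : y.2.1 ⬝ᵥ y.1 = 0
    · simp only [M, if_pos e]
      refine ⟨by simp [conjTranspose_smul, quU_herm _ _ _ e], ?_⟩
      simp only [smul_mul_assoc, mul_smul_comm, add_mul, mul_add, one_mul, mul_one,
        quU_sq _ _ _ e]
      module
    · simp [M, if_neg e]
  have hφ : ∀ B, xqState r B = fun s => φ B s.1 * φ B s.2 := fun B => rfl
  refine ⟨r, fun y => M y ⊗ₖ M y, fun B => ?_, fun y => ⟨?_, ?_⟩, fun B y => ?_⟩
  · have h1 : ∑ a, ‖φ B a‖ ^ 2 = 1 := by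
      have h2 : ∀ s, (r * sg s) ^ 2 = r ^ 2 := fun s => by
        rw [mul_pow, sq (sg s), qu_sq, mul_one]
      simp only [φ, Complex.norm_real, Real.norm_eq_abs, sq_abs, h2, sum_const, card_univ,
        Fintype.card_fun, ZMod.card, Fintype.card_fin, nsmul_eq_mul]
      push_cast
      linarith
    simp only [hφ, norm_mul, mul_pow, Fintype.sum_prod_type, ← mul_sum, h1, mul_one]
  · show (M y ⊗ₖ M y)ᴴ = _
    rw [conjTranspose_kronecker, (hM y).1]
  · rw [← mul_kronecker_mul, (hM y).2]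
  · obtain ⟨h, w, b⟩ := y
    rw [hφ, qu_two]
    have hv : ∀ u v : Fin q → ZMod 2, u + v = 0 ↔ u = v := fun u v =>
      ⟨fun e => by rw [← qu_hh u v, e, zero_add], fun e => by
        rw [e, ← zero_add v, add_assoc, zero_add v, ← add_assoc, qu_hh]⟩
    constructor
    · intro e
      obtain ⟨e1, e2⟩ : (B + Bᵀ).mulVec h = w ∧ h ⬝ᵥ B.mulVec h = b := of_decide_eq_true e
      have e3 : w ⬝ᵥ h = 0 := by
        rw [← e1, add_mulVec, add_dotProduct, mulVec_transpose, ← dotProduct_mulVec,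
          dotProduct_comm, CharTwo.add_self_eq_zero]
      simp only [M, if_pos e3, φ]
      rw [qu_prob B h w b r hr, (hv _ _).2 e1, e2, CharTwo.add_self_eq_zero]
      simp only [zero_dotProduct, sg, if_true, sum_const, card_univ, Fintype.card_fun, ZMod.card,
        Fintype.card_fin, nsmul_eq_mul]
      push_cast
      nlinarith
    · intro e
      have e0 : ¬ ((B + Bᵀ).mulVec h = w ∧ h ⬝ᵥ B.mulVec h = b) := of_decide_eq_false e
      by_cases e3 : w ⬝ᵥ h = 0
      · simp only [M, if_pos e3, φ]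
        rw [qu_prob B h w b r hr]
        by_cases e1 : (B + Bᵀ).mulVec h = w
        · have e2 : h ⬝ᵥ B.mulVec h + b ≠ 0 := fun k =>
            e0 ⟨e1, CharTwo.add_eq_zero.1 k⟩
          rw [(hv _ _).2 e1]
          simp only [zero_dotProduct, sg, if_true, if_neg e2, sum_const, card_univ,
            Fintype.card_fun, ZMod.card, Fintype.card_fin, nsmul_eq_mul]
          push_cast
          nlinarith
        · rw [qu_sum _ fun k => e1 ((hv _ _).1 k)]
          norm_num
      · simp [M, if_neg e3]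

/-- A one-way protocol whose states change by diagonal signs under addition lifts to the
function of the sum of the inputs. -/
theorem xq_lift {X Y ι : Type} [Add X] [Add Y] [Fintype Y] [Fintype ι] (f : X → Y → Bool)
    (ψ : X → ι → ℂ) (D : X → ι → ℝ) (P : Y → Matrix ι ι ℂ) (c : ℕ)
    (hc : Fintype.card ι * Fintype.card Y ≤ 2 ^ c) (hD : ∀ x s, D x s * D x s = 1)
    (hψD : ∀ x x' s, ψ (x + x') s = D x' s * ψ x s) (hψ : ∀ x, ∑ s, ‖ψ x s‖ ^ 2 = 1)
    (hP : ∀ y, (P y).IsHermitian ∧ P y * P y = P y)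
    (hf : ∀ x y, (f x y = true → (2 : ℝ) / 3 ≤ ∑ s, ‖(P y).mulVec (ψ x) s‖ ^ 2) ∧
      (f x y = false → ∑ s, ‖(P y).mulVec (ψ x) s‖ ^ 2 ≤ (1 : ℝ) / 3)) :
    QOneWay (fun a b : X × Y => f (a.1 + b.1) (a.2 + b.2)) c := by
  classical
  have hD' : ∀ x s, (D x s : ℂ) * D x s = 1 := fun x s => by
    rw [← Complex.ofReal_mul, hD, Complex.ofReal_one]
  have hDn : ∀ x s, ‖(D x s : ℂ)‖ ^ 2 = 1 := fun x s => by
    rw [Complex.norm_real, Real.norm_eq_abs, sq_abs, sq, hD]
  refine ⟨ι × Y, inferInstance, fun a p => ψ a.1 p.1 * if p.2 = a.2 then 1 else 0,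
    fun b => Matrix.of fun s t =>
      if s.2 = t.2 then D b.1 s.1 * P (s.2 + b.2) s.1 t.1 * D b.1 t.1 else 0,
    by rwa [Fintype.card_prod], fun a => ?_, fun b => ⟨?_, ?_⟩, fun a b => ?_⟩
  · rw [Fintype.sum_prod_type, ← hψ a.1]
    refine Finset.sum_congr rfl fun i _ => ?_
    rw [Finset.sum_eq_single a.2] <;> simp +contextual
  · ext ⟨i, y⟩ ⟨j, y'⟩
    simp only [conjTranspose_apply, Matrix.of_apply]
    by_cases hy : y = y'
    · subst hy
      rw [if_pos rfl, if_pos rfl, ← (hP (y + b.2)).1.apply i j]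
      simp only [star_mul', Complex.star_def, Complex.conj_ofReal]
      ring
    · simp [hy, Ne.symm hy]
  · ext ⟨i, y⟩ ⟨j, y'⟩
    simp only [Matrix.mul_apply, Fintype.sum_prod_type, Matrix.of_apply]
    have h2 := congrFun (congrFun (hP (y + b.2)).2 i) j
    rw [Matrix.mul_apply] at h2
    by_cases hy : y = y'
    · subst hy
      rw [if_pos rfl, ← h2, Finset.mul_sum, Finset.sum_mul]
      refine Finset.sum_congr rfl fun l _ => ?_
      rw [Finset.sum_eq_single y]
      · rw [if_pos rfl, if_pos rfl]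
        linear_combination (D b.1 i * P (y + b.2) i l * P (y + b.2) l j * D b.1 j) * hD' b.1 l
      · intro z _ hz
        simp [hz]
      · simp
    · rw [if_neg hy]
      refine Finset.sum_eq_zero fun l _ => Finset.sum_eq_zero fun z _ => ?_
      by_cases hz : y = z
      · subst hz
        simp [hy]
      · simp [hz]
  · have key : ∑ s : ι × Y, ‖Matrix.mulVec (Matrix.of fun s t : ι × Y =>
          if s.2 = t.2 then D b.1 s.1 * P (s.2 + b.2) s.1 t.1 * D b.1 t.1 else 0)
        (fun p => ψ a.1 p.1 * if p.2 = a.2 then 1 else 0) s‖ ^ 2 =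
        ∑ s, ‖(P (a.2 + b.2)).mulVec (ψ (a.1 + b.1)) s‖ ^ 2 := by
      rw [Fintype.sum_prod_type]
      refine Finset.sum_congr rfl fun i _ => ?_
      have h3 : ∀ z, Matrix.mulVec (Matrix.of fun s t : ι × Y =>
            if s.2 = t.2 then D b.1 s.1 * P (s.2 + b.2) s.1 t.1 * D b.1 t.1 else 0)
          (fun p => ψ a.1 p.1 * if p.2 = a.2 then 1 else 0) (i, z) =
          if z = a.2 then D b.1 i * (P (a.2 + b.2)).mulVec (ψ (a.1 + b.1)) i else 0 := by
        intro z
        simp only [mulVec, dotProduct, Fintype.sum_prod_type, Matrix.of_apply]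
        by_cases hz : z = a.2
        · subst hz
          rw [if_pos rfl, Finset.mul_sum]
          refine Finset.sum_congr rfl fun l _ => ?_
          rw [Finset.sum_eq_single a.2]
          · rw [if_pos rfl, if_pos rfl, hψD]
            ring
          · intro w _ hw
            simp [hw]
          · simp
        · rw [if_neg hz]
          refine Finset.sum_eq_zero fun l _ => Finset.sum_eq_zero fun w _ => ?_
          by_cases hw : z = w
          · subst hw
            simp [hz]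
          · simp [hw]
      simp only [h3]
      rw [Finset.sum_eq_single a.2]
      · rw [if_pos rfl, norm_mul, mul_pow, hDn, one_mul]
      · intro z _ hz
        simp [hz]
      · simp
    rw [key]
    exact hf _ _

/-- Quantum upper bound for the function of the sum of the two inputs. -/
theorem q_upper_xor (q : ℕ) :
    QOneWay (fun x y : Matrix (Fin q) (Fin q) (ZMod 2) ×
      ((Fin q → ZMod 2) × (Fin q → ZMod 2) × ZMod 2) => stab q (x + y).1 (x + y).2) (4 * q + 1) := by
  obtain ⟨r, P, h1, h2, h3⟩ := xq_explicit q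
  refine xq_lift (stab q) (xqState r)
    (fun B s => sg (s.1 ⬝ᵥ B.mulVec s.1) * sg (s.2 ⬝ᵥ B.mulVec s.2)) P _ ?_ (fun B s => ?_)
    (fun B B' s => ?_) h1 h2 h3
  · simp only [Fintype.card_prod, Fintype.card_fun, ZMod.card, Fintype.card_fin]
    exact le_of_eq (by ring)
  · linear_combination (sg (s.2 ⬝ᵥ B.mulVec s.2) * sg (s.2 ⬝ᵥ B.mulVec s.2)) *
      qu_sq (s.1 ⬝ᵥ B.mulVec s.1) + qu_sq (s.2 ⬝ᵥ B.mulVec s.2)
  · simp only [xqState, add_mulVec, dotProduct_add, qu_add]
    push_cast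
    ring

/-- Restricting a one-way randomized protocol to a sub-problem. -/
theorem xr_comap {X Y X' Y' : Type} (u : X' → X) (v : Y' → Y) (f : X → Y → Bool) (c : ℕ)
    (h : ROneWay f c) : ROneWay (fun x y => f (u x) (v y)) c := by
  obtain ⟨Ω, _, μ, msg, out, h1, h2, h3⟩ := h
  exact ⟨Ω, inferInstance, μ, fun ω x => msg ω (u x), fun ω m y => out ω m (v y), h1, h2,
    fun x y => h3 _ _⟩

/-- Restricting a one-way quantum protocol to a sub-problem. -/
theorem xq_comap {X Y X' Y' : Type} (u : X' → X) (v : Y' → Y) (f : X → Y → Bool) (c : ℕ)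
    (h : QOneWay f c) : QOneWay (fun x y => f (u x) (v y)) c := by
  obtain ⟨ι, _, ψ, P, h1, h2, h3, h4⟩ := h
  exact ⟨ι, inferInstance, fun x => ψ (u x), fun y => P (v y), h1, fun x => h2 _, fun y => h3 _,
    fun x y => h4 _ _⟩

/-- A protocol for the function of the sum gives one for the function itself. -/
theorem r_of_xor (q c : ℕ) (h : ROneWay (fun x y : Matrix (Fin q) (Fin q) (ZMod 2) ×
      ((Fin q → ZMod 2) × (Fin q → ZMod 2) × ZMod 2) => stab q (x + y).1 (x + y).2) c) :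
    ROneWay (stab q) c := by
  have := xr_comap (fun B => (B, 0)) (fun y => (0, y)) _ c h
  simpa using this

/-- Alice sends her whole input. -/
theorem xr_trivial {X Y : Type} [Fintype X] [Nonempty X] (f : X → Y → Bool) (c : ℕ)
    (hc : Fintype.card X ≤ 2 ^ c) : ROneWay f c := by
  obtain ⟨e⟩ := Function.Embedding.nonempty_of_card_le (α := X) (β := Fin c → Bool)
    (by simpa using hc)
  refine ⟨Unit, inferInstance, fun _ => 1, fun _ x => e x,
    fun _ m y => f (Function.invFun e m) y, fun _ => zero_le_one, by simp, fun x y => ?_⟩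
  simp only [Function.leftInverse_invFun e.injective x]
  norm_num

end Pool.Agent.Lib.C3bba25.OW
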